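import Mathlib

/-!
A smooth sub-Riemannian structure on `ℝ⁹` whose endpoint map has no regular value.
-/

namespace Pool.Agent.Results.MP_77ffad_gt.NoRegularValue

open Set MeasureTheory Filter Topology
open scoped ContDiff

noncomputable section

/-- Lebesgue measure on `[0,1]` -/
def leb : Measure ℝ := volume.restrict (Icc (0 : ℝ) 1)

/-- The Banach space `L²([0,1], ℝᵏ)` of controls (as the `k`-fold power of `L²([0,1])`). -/
abbrev Control (k : ℕ) : Type := Fin k → Lp ℝ 2 leb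

section defs

variable {V : Type} [NormedAddCommGroup V] [NormedSpace ℝ V] {k : ℕ}

/-- `γ : [0,1] → V` is the admissible path starting at `q` with control `u`, for the distribution
spanned by the frame `X`: it is continuous and `γ(t) = q + ∫₀ᵗ ∑ᵢ uᵢ(s) Xᵢ(γ(s)) ds`. -/
def IsTrajectory (X : Fin k → V → V) (q : V) (u : Control k) (γ : ℝ → V) : Prop :=
  ContinuousOn γ (Icc 0 1) ∧
    ∀ t ∈ Icc (0 : ℝ) 1, γ t = q + ∫ s in (0 : ℝ)..t, ∑ i, u i s • X i (γ s)

/-- Near `u` the relation `R` is the graph of a map `F`, and `u` is a critical point of `F`: the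
differential of `F` at `u` is not surjective. -/
def IsCriticalAt {U W : Type} [NormedAddCommGroup U] [NormedSpace ℝ U] [NormedAddCommGroup W]
    [NormedSpace ℝ W] (R : U → W → Prop) (u : U) : Prop :=
  ∃ (F : U → W) (A : U →L[ℝ] W), (∀ᶠ v in 𝓝 u, ∀ y, R v y ↔ y = F v) ∧ HasFDerivAt F A u ∧
    ¬ Function.Surjective A

/-- A singular curve of the distribution spanned by the frame `X`: an admissible path `γ` whose
control `u` is a critical point of the endpoint map, which sends a control `v` to the endpoint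
`η(1)` of the admissible path `η` with control `v` and the same starting point `γ(0)`. -/
def IsSingularCurve (X : Fin k → V → V) (γ : ℝ → V) : Prop :=
  ∃ u : Control k, IsTrajectory X (γ 0) u γ ∧
    IsCriticalAt (fun v y => ∃ η, IsTrajectory X (γ 0) v η ∧ η 1 = y) u

/-- The iterated Lie brackets of the vector fields `X₁, …, X_k`. -/
inductive IsIteratedBracket (X : Fin k → V → V) : (V → V) → Prop
  | basic (i : Fin k) : IsIteratedBracket X (X i)
  | bracket {Y Z : V → V} (hY : IsIteratedBracket X Y) (hZ : IsIteratedBracket X Z) :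
      IsIteratedBracket X (VectorField.lieBracket ℝ Y Z)

/-- The distribution spanned by the frame `X` is bracket generating: at every point the iterated
Lie brackets of the `Xᵢ` span the tangent space. -/
def BracketGenerating (X : Fin k → V → V) : Prop :=
  ∀ q, Submodule.span ℝ {v | ∃ Y, IsIteratedBracket X Y ∧ Y q = v} = ⊤

end defs

/-! ### Primitives of `L²` functions -/

instance : IsProbabilityMeasure leb := ⟨by simp [leb]⟩

/-- `∫₀ᵗ f` -/
def P (f : Lp ℝ 2 leb) (t : ℝ) : ℝ := ∫ s in (0 : ℝ)..t, f s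

lemma integrable_Lp (f : Lp ℝ 2 leb) :
    Integrable f leb :=
  (Lp.memLp f).integrable (by norm_num)

lemma intervalIntegrable_Lp (f : Lp ℝ 2 leb) {t : ℝ}
    (ht : t ∈ Icc (0 : ℝ) 1) : IntervalIntegrable f volume 0 t := by
  rw [intervalIntegrable_iff_integrableOn_Icc_of_le ht.1]
  exact IntegrableOn.mono_set (integrable_Lp f) (Icc_subset_Icc le_rfl ht.2)

lemma P_eq (f : Lp ℝ 2 leb) {t : ℝ} (ht : t ∈ Icc (0 : ℝ) 1) :
    P f t = ∫ s in Icc (0:ℝ) t, f s := by
  rw [P, intervalIntegral.integral_of_le ht.1, integral_Icc_eq_integral_Ioc]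

lemma integral_abs_le (f : Lp ℝ 2 leb) :
    ∫ s in Icc (0:ℝ) 1, |f s| ≤ ‖f‖ := by
  have h1 : ∫ s in Icc (0:ℝ) 1, |f s| = (eLpNorm f 1 leb).toReal := by
    rw [eLpNorm_one_eq_lintegral_enorm]
    rw [← integral_norm_eq_lintegral_enorm (integrable_Lp f).aestronglyMeasurable]
    rfl
  rw [h1, Lp.norm_def]
  apply ENNReal.toReal_mono (Lp.eLpNorm_ne_top f)
  exact eLpNorm_le_eLpNorm_of_exponent_le (by norm_num) (Lp.memLp f).aestronglyMeasurable

lemma abs_P_le (f : Lp ℝ 2 leb) {t : ℝ} (ht : t ∈ Icc (0 : ℝ) 1) :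
    |P f t| ≤ ‖f‖ := by
  refine le_trans ?_ (integral_abs_le f)
  rw [P_eq f ht]
  refine (abs_integral_le_integral_abs).trans ?_
  apply setIntegral_mono_set (integrable_Lp f).norm
  · exact ae_of_all _ fun _ => abs_nonneg _
  · exact (Icc_subset_Icc le_rfl ht.2).eventuallyLE

lemma continuousOn_P (f : Lp ℝ 2 leb) :
    ContinuousOn (P f) (Icc 0 1) := by
  have := intervalIntegral.continuousOn_primitive_interval (μ := volume) (a := 0) (b := 1)
    (f := (f : ℝ → ℝ)) (by rw [uIcc_of_le zero_le_one]; exact integrable_Lp f)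
  rwa [uIcc_of_le zero_le_one] at this

lemma ae_Icc_of {f g : ℝ → ℝ} (h : f =ᵐ[leb] g) {t : ℝ}
    (ht : t ∈ Icc (0 : ℝ) 1) : f =ᵐ[volume.restrict (Icc (0 : ℝ) t)] g :=
  ae_restrict_of_ae_restrict_of_subset (Icc_subset_Icc le_rfl ht.2) h

lemma P_add (f g : Lp ℝ 2 leb) {t : ℝ} (ht : t ∈ Icc (0 : ℝ) 1) :
    P (f + g) t = P f t + P g t := by
  rw [P_eq _ ht, P_eq _ ht, P_eq _ ht, ← integral_add]
  · exact integral_congr_ae (ae_Icc_of (Lp.coeFn_add f g) ht)
  · exact IntegrableOn.mono_set (integrable_Lp f) (Icc_subset_Icc le_rfl ht.2)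
  · exact IntegrableOn.mono_set (integrable_Lp g) (Icc_subset_Icc le_rfl ht.2)

lemma P_smul (c : ℝ) (f : Lp ℝ 2 leb) {t : ℝ}
    (ht : t ∈ Icc (0 : ℝ) 1) : P (c • f) t = c * P f t := by
  rw [P_eq _ ht, P_eq _ ht, ← integral_const_mul]
  exact integral_congr_ae (ae_Icc_of (Lp.coeFn_smul c f) ht)

/-- the functional `f ↦ ∫₀¹ f` on `L²([0,1])` -/
def J : Lp ℝ 2 leb →L[ℝ] ℝ :=
  LinearMap.mkContinuous
    { toFun := fun f => P f 1
      map_add' := fun f g => P_add f g ⟨zero_le_one, le_rfl⟩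
      map_smul' := fun c f => P_smul c f ⟨zero_le_one, le_rfl⟩ } 1
    (fun f => by rw [one_mul]; exact abs_P_le f ⟨zero_le_one, le_rfl⟩)

lemma J_apply (f : Lp ℝ 2 leb) : J f = P f 1 := rfl

lemma one_mem : (1 : ℝ) ∈ Icc (0:ℝ) 1 := ⟨zero_le_one, le_rfl⟩

/-- congruence of integrals against `L²` classes -/
lemma int_congr {f g : ℝ → ℝ} (h : f =ᵐ[leb] g) :
    ∫ s in (0:ℝ)..1, f s = ∫ s in (0:ℝ)..1, g s := by
  rw [intervalIntegral.integral_of_le zero_le_one, intervalIntegral.integral_of_le zero_le_one,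
    ← integral_Icc_eq_integral_Ioc, ← integral_Icc_eq_integral_Ioc]
  exact integral_congr_ae h

lemma intInt_mul (f : Lp ℝ 2 leb) {c : ℝ → ℝ} (hc : ContinuousOn c (Icc 0 1)) {t : ℝ}
    (ht : t ∈ Icc (0 : ℝ) 1) :
    IntervalIntegrable (fun s => f s * c s) volume 0 t :=
  (intervalIntegrable_Lp f ht).mul_continuousOn (by
    rw [uIcc_of_le ht.1]; exact hc.mono (Icc_subset_Icc le_rfl ht.2))

lemma abs_int_mul_le (f : Lp ℝ 2 leb) {c : ℝ → ℝ} {K : ℝ}
    (hc : ∀ s ∈ Icc (0:ℝ) 1, |c s| ≤ K) :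
    |∫ s in (0:ℝ)..1, f s * c s| ≤ K * ‖f‖ := by
  have hK : 0 ≤ K := (abs_nonneg _).trans (hc 1 one_mem)
  rw [intervalIntegral.integral_of_le zero_le_one, ← integral_Icc_eq_integral_Ioc]
  calc |∫ s in Icc (0:ℝ) 1, f s * c s| ≤ ∫ s in Icc (0:ℝ) 1, |f s * c s| :=
        abs_integral_le_integral_abs
    _ ≤ ∫ s in Icc (0:ℝ) 1, K * |f s| := by
        apply integral_mono_of_nonneg
        · exact ae_of_all _ fun _ => abs_nonneg _
        · exact (integrable_Lp f).abs.const_mul _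
        · filter_upwards [ae_restrict_mem measurableSet_Icc] with s hs
          rw [abs_mul, mul_comm]
          exact mul_le_mul_of_nonneg_right (hc s hs) (abs_nonneg _)
    _ = K * ∫ s in Icc (0:ℝ) 1, |f s| := integral_const_mul _ _
    _ ≤ K * ‖f‖ := mul_le_mul_of_nonneg_left (integral_abs_le f) hK

/-! ### A functional on controls and its differential -/

variable {n m : ℕ}

/-- the base path `t ↦ ∫₀ᵗ u` in `ℝⁿ` -/
def XX (u : Control n) (t : ℝ) : Fin n → ℝ := fun j => P (u j) t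

lemma norm_XX_le (u : Control n) {t : ℝ} (ht : t ∈ Icc (0 : ℝ) 1) : ‖XX u t‖ ≤ ‖u‖ := by
  rw [pi_norm_le_iff_of_nonneg (norm_nonneg _)]
  intro j
  exact (abs_P_le (u j) ht).trans (norm_le_pi_norm u j)

lemma continuousOn_XX (u : Control n) : ContinuousOn (XX u) (Icc 0 1) := by
  rw [continuousOn_pi]
  intro j
  exact continuousOn_P (u j)

lemma XX_add (u v : Control n) {t : ℝ} (ht : t ∈ Icc (0 : ℝ) 1) :
    XX (u + v) t = XX u t + XX v t := by
  ext j
  exact P_add (u j) (v j) ht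

lemma XX_smul (c : ℝ) (v : Control n) {t : ℝ} (ht : t ∈ Icc (0 : ℝ) 1) :
    XX (c • v) t = c • XX v t := by
  ext j
  exact P_smul c (v j) ht

/-- `∫₀¹ uᵢ c(X_u)` -/
def Phi1 (i : Fin n) (c : (Fin n → ℝ) → ℝ) (u : Control n) : ℝ :=
  ∫ s in (0:ℝ)..1, u i s * c (XX u s)

lemma exists_DPhi1 (i : Fin n) {c : (Fin n → ℝ) → ℝ} (hc : ContDiff ℝ ∞ c) (u : Control n) :
    ∃ D : Control n →L[ℝ] ℝ, (∀ v, D v = ∫ s in (0:ℝ)..1,
      (v i s * c (XX u s) + u i s * fderiv ℝ c (XX u s) (XX v s))) ∧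
      HasFDerivAt (Phi1 i c) D u := by
  have hcc : Continuous c := hc.continuous
  have hc' : ContDiff ℝ ∞ (fderiv ℝ c) := hc.fderiv_right (by simp)
  have hcont1 : ContinuousOn (fun s => c (XX u s)) (Icc 0 1) :=
    hcc.comp_continuousOn (continuousOn_XX u)
  have hcont2 : ∀ v : Control n, ContinuousOn (fun s => fderiv ℝ c (XX u s) (XX v s))
      (Icc 0 1) := fun v =>
    (hc'.continuous.comp_continuousOn (continuousOn_XX u)).clm_apply (continuousOn_XX v)
  -- bounds on a ball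
  have hcomp : IsCompact (Metric.closedBall (0 : Fin n → ℝ) (‖u‖ + 1)) :=
    isCompact_closedBall _ _
  obtain ⟨C0, hC0⟩ := hcomp.exists_bound_of_continuousOn hcc.continuousOn
  obtain ⟨C1, hC1⟩ := hcomp.exists_bound_of_continuousOn hc'.continuous.continuousOn
  have hc2 : Continuous (fderiv ℝ (fderiv ℝ c)) := (hc'.fderiv_right (m := ∞) (by simp)).continuous
  obtain ⟨C2, hC2⟩ := hcomp.exists_bound_of_continuousOn
    (E := (Fin n → ℝ) →L[ℝ] (Fin n → ℝ) →L[ℝ] ℝ) hc2.continuousOn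
  have hconv : Convex ℝ (Metric.closedBall (0 : Fin n → ℝ) (‖u‖ + 1)) := convex_closedBall _ _
  have hmem : ∀ s ∈ Icc (0:ℝ) 1, XX u s ∈ Metric.closedBall (0 : Fin n → ℝ) (‖u‖ + 1) := by
    intro s hs
    rw [mem_closedBall_zero_iff]
    exact (norm_XX_le u hs).trans (by linarith)
  have hC1nn : 0 ≤ C1 := (norm_nonneg _).trans (hC1 _ (hmem 1 one_mem))
  have hC2nn : 0 ≤ C2 := (norm_nonneg _).trans (hC2 _ (hmem 1 one_mem))
  -- integrability
  have hi1 : ∀ v : Control n, IntervalIntegrable (fun s => v i s * c (XX u s)) volume 0 1 :=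
    fun v => intInt_mul (v i) hcont1 one_mem
  have hi2 : ∀ v : Control n, IntervalIntegrable
      (fun s => u i s * fderiv ℝ c (XX u s) (XX v s)) volume 0 1 :=
    fun v => intInt_mul (u i) (hcont2 v) one_mem
  -- the linear map
  let L : Control n →ₗ[ℝ] ℝ :=
    { toFun := fun v => ∫ s in (0:ℝ)..1,
        (v i s * c (XX u s) + u i s * fderiv ℝ c (XX u s) (XX v s))
      map_add' := by
        intro v w
        rw [← intervalIntegral.integral_add ((hi1 v).add (hi2 v)) ((hi1 w).add (hi2 w))]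
        apply int_congr
        filter_upwards [Lp.coeFn_add (v i) (w i), ae_restrict_mem measurableSet_Icc] with s h1 hs
        rw [Pi.add_apply v w i, h1, XX_add v w hs, map_add, Pi.add_apply]
        ring
      map_smul' := by
        intro r v
        rw [RingHom.id_apply, smul_eq_mul, ← intervalIntegral.integral_const_mul]
        apply int_congr
        filter_upwards [Lp.coeFn_smul r (v i), ae_restrict_mem measurableSet_Icc] with s h1 hs
        rw [Pi.smul_apply r v i, h1, XX_smul r v hs, map_smul, Pi.smul_apply, smul_eq_mul,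
          smul_eq_mul]
        ring }
  have hL : ∀ v, L v = ∫ s in (0:ℝ)..1,
      (v i s * c (XX u s) + u i s * fderiv ℝ c (XX u s) (XX v s)) := fun v => rfl
  have hbound : ∀ v, ‖L v‖ ≤ (C0 + C1 * ‖u‖) * ‖v‖ := by
    intro v
    rw [hL, intervalIntegral.integral_add (hi1 v) (hi2 v)]
    refine (norm_add_le _ _).trans ?_
    have h1 : ‖∫ s in (0:ℝ)..1, v i s * c (XX u s)‖ ≤ C0 * ‖v‖ := by
      refine (abs_int_mul_le (v i) (fun s hs => hC0 _ (hmem s hs))).trans ?_
      exact mul_le_mul_of_nonneg_left (norm_le_pi_norm v i)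
        ((norm_nonneg _).trans (hC0 _ (hmem 1 one_mem)))
    have h2 : ‖∫ s in (0:ℝ)..1, u i s * fderiv ℝ c (XX u s) (XX v s)‖ ≤
        (C1 * ‖v‖) * ‖u‖ := by
      refine (abs_int_mul_le (u i) (K := C1 * ‖v‖) (fun s hs => ?_)).trans ?_
      · exact (ContinuousLinearMap.le_opNorm _ _).trans
          (mul_le_mul (hC1 _ (hmem s hs)) (norm_XX_le v hs) (norm_nonneg _) hC1nn)
      · exact mul_le_mul_of_nonneg_left (norm_le_pi_norm u i)
          (mul_nonneg hC1nn (norm_nonneg _))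
    calc _ ≤ C0 * ‖v‖ + (C1 * ‖v‖) * ‖u‖ := add_le_add h1 h2
      _ = (C0 + C1 * ‖u‖) * ‖v‖ := by ring
  refine ⟨L.mkContinuous _ hbound, fun v => rfl, ?_⟩
  rw [hasFDerivAt_iff_isLittleO_nhds_zero]
  have hO : (fun h : Control n => Phi1 i c (u + h) - Phi1 i c u -
      (L.mkContinuous _ hbound) h) =O[𝓝 0] (fun h => ‖h‖ ^ 2) := by
    apply Asymptotics.IsBigO.of_bound (C2 * ‖u‖ + C1)
    filter_upwards [Metric.ball_mem_nhds (0 : Control n) one_pos] with h hh
    rw [mem_ball_zero_iff] at hh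
    have hmem' : ∀ s ∈ Icc (0:ℝ) 1, XX u s + XX h s ∈
        Metric.closedBall (0 : Fin n → ℝ) (‖u‖ + 1) := by
      intro s hs
      rw [mem_closedBall_zero_iff]
      exact (norm_add_le _ _).trans (add_le_add (norm_XX_le u hs)
        ((norm_XX_le h hs).trans hh.le))
    -- first order estimate
    have e1 : ∀ s ∈ Icc (0:ℝ) 1, |c (XX u s + XX h s) - c (XX u s)| ≤ C1 * ‖h‖ := by
      intro s hs
      have := hconv.norm_image_sub_le_of_norm_fderiv_le (𝕜 := ℝ) (f := c) (C := C1)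
        (fun x _ => hc.differentiable (by simp) x) (fun x hx => hC1 x hx) (hmem s hs)
        (hmem' s hs)
      rw [Real.norm_eq_abs, add_sub_cancel_left] at this
      exact this.trans (mul_le_mul_of_nonneg_left (norm_XX_le h hs) hC1nn)
    -- second order estimate
    have e2 : ∀ s ∈ Icc (0:ℝ) 1, |c (XX u s + XX h s) - c (XX u s) -
        fderiv ℝ c (XX u s) (XX h s)| ≤ C2 * ‖h‖ ^ 2 := by
      intro s hs
      set x := XX u s with hx
      set k := XX h s with hk
      have hk' : ‖k‖ ≤ ‖h‖ := norm_XX_le h hs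
      have hseg : segment ℝ x (x + k) ⊆ Metric.closedBall (0 : Fin n → ℝ) (‖u‖ + 1) :=
        hconv.segment_subset (hmem s hs) (hmem' s hs)
      have hd : ∀ z ∈ segment ℝ x (x + k), ‖fderiv ℝ c z - fderiv ℝ c x‖ ≤ C2 * ‖k‖ := by
        intro z hz
        have h3 := hconv.norm_image_sub_le_of_norm_fderiv_le (𝕜 := ℝ) (f := fderiv ℝ c)
          (C := C2) (fun x _ => hc'.differentiable (by simp) x) (fun x hx => hC2 x hx)
          (hmem s hs) (hseg hz)
        refine h3.trans (mul_le_mul_of_nonneg_left ?_ hC2nn)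
        have h4 : z - x ∈ segment ℝ (0 : Fin n → ℝ) k := by
          obtain ⟨a, b, ha, hb, hab, rfl⟩ := hz
          refine ⟨a, b, ha, hb, hab, ?_⟩
          have : a • x + b • (x + k) - x = (a + b - 1) • x + b • k := by module
          rw [this, hab]
          simp
        obtain ⟨a, b, ha, hb, hab, h5⟩ := h4
        rw [← h5, smul_zero, zero_add, norm_smul, Real.norm_eq_abs, abs_of_nonneg hb]
        exact mul_le_of_le_one_left (norm_nonneg _) (by linarith)
      have h6 := (convex_segment x (x + k)).norm_image_sub_le_of_norm_hasFDerivWithin_le'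
        (𝕜 := ℝ) (f := c) (φ := fderiv ℝ c x) (C := C2 * ‖k‖)
        (fun z _ => (hc.differentiable (by simp) z).hasFDerivAt.hasFDerivWithinAt) hd
        (left_mem_segment ℝ x (x + k)) (right_mem_segment ℝ x (x + k))
      rw [add_sub_cancel_left, Real.norm_eq_abs] at h6
      refine h6.trans ?_
      calc C2 * ‖k‖ * ‖k‖ = C2 * ‖k‖ ^ 2 := by ring
        _ ≤ C2 * ‖h‖ ^ 2 := by gcongr
    have hci : ContinuousOn (fun s => c (XX u s + XX h s)) (Icc 0 1) :=
      hcc.comp_continuousOn ((continuousOn_XX u).add (continuousOn_XX h))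
    have key : Phi1 i c (u + h) - Phi1 i c u - (L.mkContinuous _ hbound) h =
        (∫ s in (0:ℝ)..1, u i s * (c (XX u s + XX h s) - c (XX u s) -
          fderiv ℝ c (XX u s) (XX h s))) +
        ∫ s in (0:ℝ)..1, h i s * (c (XX u s + XX h s) - c (XX u s)) := by
      have h7 : Phi1 i c (u + h) = ∫ s in (0:ℝ)..1,
          (u i s * c (XX u s + XX h s) + h i s * c (XX u s + XX h s)) := by
        apply int_congr
        filter_upwards [Lp.coeFn_add (u i) (h i), ae_restrict_mem measurableSet_Icc] with s h1 hs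
        rw [Pi.add_apply u h i, h1, XX_add u h hs, Pi.add_apply]
        ring
      have h8 : (L.mkContinuous _ hbound) h = ∫ s in (0:ℝ)..1,
        (h i s * c (XX u s) + u i s * fderiv ℝ c (XX u s) (XX h s)) := rfl
      rw [h7, h8, Phi1, ← intervalIntegral.integral_sub, ← intervalIntegral.integral_sub,
        ← intervalIntegral.integral_add]
      · apply intervalIntegral.integral_congr
        intro s _
        ring
      · exact intInt_mul (u i) ((hci.sub hcont1).sub (hcont2 h)) one_mem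
      · exact intInt_mul (h i) (hci.sub hcont1) one_mem
      · exact ((intInt_mul (u i) hci one_mem).add (intInt_mul (h i) hci one_mem)).sub (hi1 u)
      · exact (hi1 h).add (hi2 h)
      · exact (intInt_mul (u i) hci one_mem).add (intInt_mul (h i) hci one_mem)
      · exact hi1 u
    rw [key]
    have b1 := abs_int_mul_le (u i) e2
    have b2 := abs_int_mul_le (h i) e1
    have b3 : ‖u i‖ ≤ ‖u‖ := norm_le_pi_norm u i
    have b4 : ‖h i‖ ≤ ‖h‖ := norm_le_pi_norm h i
    rw [Real.norm_eq_abs, Real.norm_eq_abs, abs_of_nonneg (sq_nonneg ‖h‖)]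
    refine (abs_add_le _ _).trans ((add_le_add b1 b2).trans ?_)
    calc C2 * ‖h‖ ^ 2 * ‖u i‖ + C1 * ‖h‖ * ‖h i‖ ≤ C2 * ‖h‖ ^ 2 * ‖u‖ + C1 * ‖h‖ * ‖h‖ := by
          gcongr
      _ = (C2 * ‖u‖ + C1) * ‖h‖ ^ 2 := by ring
  refine hO.trans_isLittleO ?_
  exact Asymptotics.isLittleO_norm_pow_id (by norm_num)

/-! ### Admissible paths of `ℝⁿ × ℝᵐ` and the endpoint map -/

/-- the frame `(eᵢ, Aᵢ(x))` of `ℝⁿ × ℝᵐ` -/
def hframe (A : Fin n → (Fin n → ℝ) → (Fin m → ℝ)) (i : Fin n)
    (q : (Fin n → ℝ) × (Fin m → ℝ)) : (Fin n → ℝ) × (Fin m → ℝ) :=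
  (Pi.single i 1, A i q.1)

/-- the endpoint map -/
def Efun (A : Fin n → (Fin n → ℝ) → (Fin m → ℝ)) (u : Control n) :
    (Fin n → ℝ) × (Fin m → ℝ) :=
  (fun i => J (u i), fun l => ∑ i, Phi1 i (fun x => A i x l) u)

/-- the trajectories -/
def traj (A : Fin n → (Fin n → ℝ) → (Fin m → ℝ)) (u : Control n) (t : ℝ) :
    (Fin n → ℝ) × (Fin m → ℝ) :=
  (XX u t, fun l => ∫ s in (0:ℝ)..t, ∑ i, u i s * A i (XX u s) l)

lemma hframe_smooth {A : Fin n → (Fin n → ℝ) → (Fin m → ℝ)} (hA : ∀ i, ContDiff ℝ ∞ (A i))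
    (i : Fin n) : ContDiff ℝ ∞ (hframe A i) :=
  contDiff_const.prodMk ((hA i).comp contDiff_fst)

lemma integral_hframe {A : Fin n → (Fin n → ℝ) → (Fin m → ℝ)} (hA : ∀ i, ContDiff ℝ ∞ (A i))
    (u : Control n) {γ : ℝ → (Fin n → ℝ) × (Fin m → ℝ)} (hγ : ContinuousOn γ (Icc 0 1))
    {t : ℝ} (ht : t ∈ Icc (0 : ℝ) 1) :
    ∫ s in (0 : ℝ)..t, ∑ i, u i s • hframe A i (γ s) =
      (XX u t, fun l => ∫ s in (0 : ℝ)..t, ∑ i, u i s * A i (γ s).1 l) := by
  have hint : IntervalIntegrable (fun s => ∑ i, u i s • hframe A i (γ s)) volume 0 t := by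
    have h1 : ∀ i ∈ Finset.univ, IntervalIntegrable (fun s => u i s • hframe A i (γ s))
        volume 0 t := by
      intro i _
      apply (intervalIntegrable_Lp (u i) ht).smul_continuousOn
      rw [uIcc_of_le ht.1]
      exact (hframe_smooth hA i).continuous.comp_continuousOn
        (hγ.mono (Icc_subset_Icc le_rfl ht.2))
    have h2 := IntervalIntegrable.sum _ h1
    have e : (fun s => ∑ i, u i s • hframe A i (γ s)) =
        ∑ i, fun s => u i s • hframe A i (γ s) := by
      funext s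
      rw [Finset.sum_apply]
    rw [e]
    exact h2
  have c1 : ∀ j : Fin n, (∫ s in (0 : ℝ)..t, ∑ i, u i s • hframe A i (γ s)).1 j =
      XX u t j := by
    intro j
    have h3 := ((ContinuousLinearMap.proj (R := ℝ) (φ := fun _ : Fin n => ℝ) j).comp
      (ContinuousLinearMap.fst ℝ (Fin n → ℝ) (Fin m → ℝ))).intervalIntegral_comp_comm hint
    simp only [ContinuousLinearMap.comp_apply, ContinuousLinearMap.proj_apply,
      ContinuousLinearMap.coe_fst'] at h3
    rw [← h3]
    show _ = ∫ s in (0 : ℝ)..t, u j s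
    congr 1
    ext1 s
    rw [Prod.fst_sum, Finset.sum_apply, Finset.sum_eq_single j]
    · simp [hframe]
    · intro b _ hb
      simp [hframe, hb.symm]
    · simp
  have c2 : ∀ l : Fin m, (∫ s in (0 : ℝ)..t, ∑ i, u i s • hframe A i (γ s)).2 l =
      ∫ s in (0 : ℝ)..t, ∑ i, u i s * A i (γ s).1 l := by
    intro l
    have h3 := ((ContinuousLinearMap.proj (R := ℝ) (φ := fun _ : Fin m => ℝ) l).comp
      (ContinuousLinearMap.snd ℝ (Fin n → ℝ) (Fin m → ℝ))).intervalIntegral_comp_comm hint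
    simp only [ContinuousLinearMap.comp_apply, ContinuousLinearMap.proj_apply,
      ContinuousLinearMap.coe_snd'] at h3
    rw [← h3]
    congr 1
    ext1 s
    rw [Prod.snd_sum, Finset.sum_apply]
    rfl
  exact Prod.ext (funext c1) (funext c2)

lemma XX_zero (u : Control n) : XX u 0 = 0 := by
  ext j
  simp [XX, P]

lemma intInt_sum {A : Fin n → (Fin n → ℝ) → (Fin m → ℝ)} (hA : ∀ i, ContDiff ℝ ∞ (A i))
    (u : Control n) (l : Fin m) :
    IntervalIntegrable (fun s => ∑ i, u i s * A i (XX u s) l) volume 0 1 := by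
  have h1 : ∀ i ∈ Finset.univ, IntervalIntegrable (fun s => u i s * A i (XX u s) l)
      volume 0 1 := by
    intro i _
    apply intInt_mul (u i) _ one_mem
    exact ((continuous_apply l).comp (hA i).continuous).comp_continuousOn (continuousOn_XX u)
  have h2 := IntervalIntegrable.sum _ h1
  have e : (fun s => ∑ i, u i s * A i (XX u s) l) =
      ∑ i, fun s => u i s * A i (XX u s) l := by
    funext s
    rw [Finset.sum_apply]
  rw [e]
  exact h2

lemma traj_isTrajectory {A : Fin n → (Fin n → ℝ) → (Fin m → ℝ)} (hA : ∀ i, ContDiff ℝ ∞ (A i))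
    (u : Control n) : IsTrajectory (hframe A) 0 u (traj A u) := by
  have hcont : ContinuousOn (traj A u) (Icc 0 1) := by
    apply (continuousOn_XX u).prodMk
    rw [continuousOn_pi]
    intro l
    have := intervalIntegral.continuousOn_primitive_interval (μ := volume) (a := 0) (b := 1)
      (f := fun s => ∑ i, u i s * A i (XX u s) l) (by
        rw [uIcc_of_le zero_le_one]
        have h := intInt_sum hA u l
        rwa [intervalIntegrable_iff_integrableOn_Icc_of_le zero_le_one] at h)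
    rwa [uIcc_of_le zero_le_one] at this
  refine ⟨hcont, ?_⟩
  intro t ht
  rw [integral_hframe hA u hcont ht, zero_add]
  rfl

lemma traj_unique {A : Fin n → (Fin n → ℝ) → (Fin m → ℝ)} (hA : ∀ i, ContDiff ℝ ∞ (A i))
    (u : Control n) (η : ℝ → (Fin n → ℝ) × (Fin m → ℝ))
    (h : IsTrajectory (hframe A) 0 u η) : η 1 = Efun A u := by
  have h2 : ∀ t ∈ Icc (0:ℝ) 1, η t =
      (XX u t, fun l => ∫ s in (0 : ℝ)..t, ∑ i, u i s * A i (η s).1 l) := by
    intro t ht
    rw [← integral_hframe hA u h.1 ht, h.2 t ht, zero_add]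
  rw [h2 1 one_mem]
  refine Prod.ext rfl (funext fun l => ?_)
  show ∫ s in (0 : ℝ)..1, ∑ i, u i s * A i (η s).1 l = ∑ i, Phi1 i (fun x => A i x l) u
  unfold Phi1
  rw [← intervalIntegral.integral_finsetSum]
  · apply intervalIntegral.integral_congr
    intro s hs
    rw [uIcc_of_le zero_le_one] at hs
    simp only [h2 s hs]
  · intro i _
    apply intInt_mul (u i) _ one_mem
    exact ((continuous_apply l).comp (hA i).continuous).comp_continuousOn (continuousOn_XX u)

lemma endpoint_iff {A : Fin n → (Fin n → ℝ) → (Fin m → ℝ)} (hA : ∀ i, ContDiff ℝ ∞ (A i))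
    (v : Control n) (y : (Fin n → ℝ) × (Fin m → ℝ)) :
    (∃ η, IsTrajectory (hframe A) 0 v η ∧ η 1 = y) ↔ y = Efun A v := by
  constructor
  · rintro ⟨η, h, rfl⟩
    exact traj_unique hA v η h
  · rintro rfl
    exact ⟨_, traj_isTrajectory hA v, traj_unique hA v _ (traj_isTrajectory hA v)⟩

/-- integration by parts against an `L²` function -/
lemma ibp (f : Lp ℝ 2 leb) {g g' : ℝ → ℝ} (hg : ∀ t, HasDerivAt g (g' t) t)
    (hg' : Continuous g') :
    ∫ s in (0:ℝ)..1, (f s * g s + P f s * g' s) = P f 1 * g 1 := by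
  have hf1 : IntervalIntegrable f volume 0 1 := intervalIntegrable_Lp f one_mem
  have hac : AbsolutelyContinuousOnInterval (P f) 0 1 :=
    hf1.absolutelyContinuousOnInterval_intervalIntegral (c := 0) (by simp)
  have hgd : deriv g = g' := funext fun t => (hg t).deriv
  have hg1 : ContDiff ℝ 1 g := by
    rw [contDiff_one_iff_deriv, hgd]
    exact ⟨fun t => (hg t).differentiableAt, hg'⟩
  have hgac : AbsolutelyContinuousOnInterval g 0 1 :=
    hg1.contDiffOn.absolutelyContinuousOnInterval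
  have h1 := hac.integral_deriv_mul_eq_sub hgac
  have h0 : P f 0 = 0 := by simp [P]
  rw [h0, zero_mul, sub_zero] at h1
  rw [← h1]
  apply intervalIntegral.integral_congr_ae
  filter_upwards [hf1.ae_hasDerivAt_integral] with s hs hs'
  have h2 : HasDerivAt (P f) (f s) s := hs (uIoc_subset_uIcc hs') 0 (by simp)
  rw [h2.deriv, hgd]

/-- **Criterion for criticality.** -/
lemma isSingularCurve_of {A : Fin n → (Fin n → ℝ) → (Fin m → ℝ)}
    (hA : ∀ i, ContDiff ℝ ∞ (A i)) (lam : Fin m → ℝ) (hlam : lam ≠ 0)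
    {x x' : ℝ → (Fin n → ℝ)} (hx0 : x 0 = 0) (hx : ∀ t, HasDerivAt x (x' t) t)
    (hx' : Continuous x') (u : Control n) (hu : ∀ i, u i =ᵐ[leb] fun t => x' t i)
    (hcurv : ∀ t ∈ Icc (0:ℝ) 1, ∀ v : Fin n → ℝ,
      ∑ i, x' t i * fderiv ℝ (fun z => ∑ l, lam l * A i z l) (x t) v =
        ∑ i, v i * fderiv ℝ (fun z => ∑ l, lam l * A i z l) (x t) (x' t)) :
    IsSingularCurve (hframe A) (traj A u) := by
  have h0 : traj A u 0 = 0 := by
    refine Prod.ext (XX_zero u) (funext fun l => ?_)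
    simp [traj]
  have hxi : ∀ i t, HasDerivAt (fun t => x t i) (x' t i) t := fun i t =>
    (hasDerivAt_pi.1 (hx t)) i
  have hx'i : ∀ i, Continuous fun t => x' t i := fun i => (continuous_apply i).comp hx'
  -- the base path
  have hXX : ∀ t ∈ Icc (0:ℝ) 1, XX u t = x t := by
    intro t ht
    ext j
    have h1 : XX u t j = ∫ s in (0:ℝ)..t, x' s j := by
      show P (u j) t = _
      rw [P_eq _ ht, intervalIntegral.integral_of_le ht.1, ← integral_Icc_eq_integral_Ioc]
      exact integral_congr_ae (ae_Icc_of (hu j) ht)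
    rw [h1, intervalIntegral.integral_eq_sub_of_hasDerivAt (fun s _ => hxi j s)
      ((hx'i j).intervalIntegrable _ _), hx0, Pi.zero_apply, sub_zero]
  -- scalar components
  have hAl : ∀ i l, ContDiff ℝ ∞ (fun z => A i z l) := fun i l => (contDiff_pi.1 (hA i)) l
  choose D hD1 hD2 using fun i l => exists_DPhi1 i (hAl i l) u
  set a : Fin n → (Fin n → ℝ) → ℝ := fun i z => ∑ l, lam l * A i z l with ha
  have hac : ∀ i, ContDiff ℝ ∞ (a i) := fun i =>
    ContDiff.sum fun l _ => contDiff_const.mul (hAl i l)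
  have hfd : ∀ i z w, fderiv ℝ (a i) z w = ∑ l, lam l * fderiv ℝ (fun z => A i z l) z w := by
    intro i z w
    have h1 : HasFDerivAt (a i) (∑ l, lam l • fderiv ℝ (fun z => A i z l) z) z := by
      have h2 := HasFDerivAt.fun_sum (u := Finset.univ) (A := fun l z => lam l * A i z l)
        (A' := fun l => lam l • fderiv ℝ (fun z => A i z l) z) (x := z)
        (fun l _ => ((hAl i l).differentiable (by simp) z).hasFDerivAt.const_mul (lam l))
      exact h2
    rw [h1.fderiv]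
    simp
  -- differential of `λ ∘ endpoint`
  have key : ∀ v : Control n, ∑ l, lam l * ∑ i, D i l v = ∑ i, P (v i) 1 * a i (x 1) := by
    intro v
    have hcA : ∀ i l, ContinuousOn (fun s => A i (XX u s) l) (Icc 0 1) := fun i l =>
      (hAl i l).continuous.comp_continuousOn (continuousOn_XX u)
    have hcD : ∀ i l, ContinuousOn (fun s => fderiv ℝ (fun z => A i z l) (XX u s) (XX v s))
        (Icc 0 1) := fun i l =>
      (((hAl i l).fderiv_right (m := ∞) (by simp)).continuous.comp_continuousOn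
        (continuousOn_XX u)).clm_apply (continuousOn_XX v)
    have hint : ∀ i l, IntervalIntegrable (fun s => v i s * A i (XX u s) l +
        u i s * fderiv ℝ (fun z => A i z l) (XX u s) (XX v s)) volume 0 1 := fun i l =>
      (intInt_mul (v i) (hcA i l) one_mem).add (intInt_mul (u i) (hcD i l) one_mem)
    calc ∑ l, lam l * ∑ i, D i l v
        = ∑ l, ∑ i, ∫ s in (0:ℝ)..1, lam l * (v i s * A i (XX u s) l +
            u i s * fderiv ℝ (fun z => A i z l) (XX u s) (XX v s)) := by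
          refine Finset.sum_congr rfl fun l _ => ?_
          rw [Finset.mul_sum]
          refine Finset.sum_congr rfl fun i _ => ?_
          rw [hD1, intervalIntegral.integral_const_mul]
      _ = ∫ s in (0:ℝ)..1, ∑ l, ∑ i, lam l * (v i s * A i (XX u s) l +
            u i s * fderiv ℝ (fun z => A i z l) (XX u s) (XX v s)) := by
          rw [intervalIntegral.integral_finsetSum]
          · refine Finset.sum_congr rfl fun l _ => ?_
            rw [intervalIntegral.integral_finsetSum]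
            intro i _
            exact (hint i l).const_mul _
          · intro l _
            have h2 := IntervalIntegrable.sum (μ := volume) (a := 0) (b := 1) Finset.univ
              (f := fun i s => lam l * (v i s * A i (XX u s) l +
                u i s * fderiv ℝ (fun z => A i z l) (XX u s) (XX v s)))
              (fun i _ => (hint i l).const_mul _)
            have e : (fun s => ∑ i, lam l * (v i s * A i (XX u s) l +
                u i s * fderiv ℝ (fun z => A i z l) (XX u s) (XX v s))) =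
              ∑ i, fun s => lam l * (v i s * A i (XX u s) l +
                u i s * fderiv ℝ (fun z => A i z l) (XX u s) (XX v s)) := by
              funext s
              rw [Finset.sum_apply]
            rw [e]
            exact h2
      _ = ∫ s in (0:ℝ)..1, ∑ i, (v i s * a i (x s) +
            P (v i) s * fderiv ℝ (a i) (x s) (x' s)) := by
          apply int_congr
          have hu' : ∀ᵐ s ∂leb, ∀ i, u i s = x' s i := ae_all_iff.2 hu
          filter_upwards [hu', ae_restrict_mem measurableSet_Icc] with s h1 hs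
          rw [Finset.sum_comm]
          simp only [h1, hXX s hs]
          have h3 := hcurv s hs (XX v s)
          have h4 : ∀ i, XX v s i = P (v i) s := fun i => rfl
          simp only [h4] at h3
          rw [Finset.sum_add_distrib, ← h3, ← Finset.sum_add_distrib]
          refine Finset.sum_congr rfl fun i _ => ?_
          rw [hfd, ha]
          simp only [Finset.mul_sum]
          rw [← Finset.sum_add_distrib]
          refine Finset.sum_congr rfl fun l _ => ?_
          ring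
      _ = ∑ i, ∫ s in (0:ℝ)..1, (v i s * a i (x s) +
            P (v i) s * fderiv ℝ (a i) (x s) (x' s)) := by
          have hxc : Continuous x := continuous_iff_continuousAt.2 fun t => (hx t).continuousAt
          rw [intervalIntegral.integral_finsetSum]
          intro i _
          apply IntervalIntegrable.add
          · exact intInt_mul (v i) ((hac i).continuous.comp hxc).continuousOn one_mem
          · apply ContinuousOn.intervalIntegrable
            rw [uIcc_of_le zero_le_one]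
            apply (continuousOn_P (v i)).mul
            exact ((((hac i).fderiv_right (m := ∞) (by simp)).continuous.comp
              hxc).clm_apply hx').continuousOn
      _ = ∑ i, P (v i) 1 * a i (x 1) := by
          have hxc : Continuous x := continuous_iff_continuousAt.2 fun t => (hx t).continuousAt
          refine Finset.sum_congr rfl fun i _ => ?_
          refine ibp (v i) (g := fun s => a i (x s))
            (g' := fun s => fderiv ℝ (a i) (x s) (x' s)) (fun t => ?_) ?_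
          · exact ((hac i).differentiable (by simp) (x t)).hasFDerivAt.comp_hasDerivAt t (hx t)
          · exact (((hac i).fderiv_right (m := ∞) (by simp)).continuous.comp
              hxc).clm_apply hx'
  refine ⟨u, ?_, Efun A, (ContinuousLinearMap.pi fun i =>
      J.comp (ContinuousLinearMap.proj (R := ℝ) (φ := fun _ : Fin n => Lp ℝ 2 leb) i)).prod
      (ContinuousLinearMap.pi fun l => ∑ i, D i l), ?_, ?_, ?_⟩
  · rw [h0]; exact traj_isTrajectory hA u
  · rw [h0]; exact Eventually.of_forall fun v y => endpoint_iff hA v y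
  · apply HasFDerivAt.prodMk
    · rw [hasFDerivAt_pi]
      intro i
      exact (J.comp (ContinuousLinearMap.proj (R := ℝ)
        (φ := fun _ : Fin n => Lp ℝ 2 leb) i)).hasFDerivAt
    · rw [hasFDerivAt_pi]
      intro l
      exact HasFDerivAt.fun_sum fun i _ => hD2 i l
  · intro hsurj
    obtain ⟨v, hv⟩ := hsurj (0, lam)
    have e1 : ∀ i, P (v i) 1 = 0 := fun i => congrFun (congrArg Prod.fst hv) i
    have e2 : ∀ l, ∑ i, D i l v = lam l := by
      intro l
      have := congrFun (congrArg Prod.snd hv) l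
      simpa using this
    have h3 := key v
    simp only [e1, e2, zero_mul, Finset.sum_const_zero] at h3
    apply hlam
    ext l
    have h4 := (Finset.sum_eq_zero_iff_of_nonneg (fun l _ => mul_self_nonneg (lam l))).1 h3 l
      (Finset.mem_univ l)
    exact mul_self_eq_zero.1 h4

/-! ### The flat function -/

/-- a bump function, equal to `1` near `1` and supported in `[3/4, 5/4]` -/
def psi : ContDiffBump (1 : ℝ) := ⟨1 / 8, 1 / 4, by norm_num, by norm_num⟩

/-- the flat function `∑ⱼ ψ(βʲ y) / j!`, `β = 16⁵` -/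
def G (y : ℝ) : ℝ := ∑' j : ℕ, (1 / (j.factorial : ℝ)) * psi (((16:ℝ) ^ 5) ^ j * y)

lemma psi_smooth : ContDiff ℝ ∞ (psi : ℝ → ℝ) := psi.contDiff

lemma psi_zero_of {y : ℝ} (h : 1 / 4 ≤ |y - 1|) : psi y = 0 :=
  psi.zero_of_le_dist (by rw [Real.dist_eq]; exact h)

lemma psi_one : psi 1 = 1 := psi.one_of_mem_closedBall (by simp [psi])

lemma deriv_psi_one : deriv psi 1 = 0 := by
  have h : (psi : ℝ → ℝ) =ᶠ[𝓝 1] fun _ => (1:ℝ) := psi.eventuallyEq_one
  rw [h.deriv_eq]
  simp

lemma deriv_psi_zero_of {y : ℝ} (h : 1 / 4 < |y - 1|) : deriv psi y = 0 := by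
  by_contra hne
  have h1 : y ∈ tsupport (psi : ℝ → ℝ) := support_deriv_subset hne
  rw [psi.tsupport_eq, Metric.mem_closedBall, Real.dist_eq] at h1
  have h2 : psi.rOut = 1 / 4 := rfl
  rw [h2] at h1
  linarith

lemma exists_psi_bound (k : ℕ) : ∃ C, ∀ x, ‖iteratedFDeriv ℝ k psi x‖ ≤ C :=
  (psi.hasCompactSupport.iteratedFDeriv k).exists_bound_of_continuous
    (psi_smooth.continuous_iteratedFDeriv (by exact_mod_cast le_top))

lemma term_smooth (j : ℕ) :
    ContDiff ℝ ∞ (fun y => (1 / (j.factorial : ℝ)) * psi (((16:ℝ) ^ 5) ^ j * y)) :=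
  contDiff_const.mul (psi_smooth.comp (contDiff_const.mul contDiff_id))

lemma term_bound (k j : ℕ) {C : ℝ} (hC : ∀ x, ‖iteratedFDeriv ℝ k psi x‖ ≤ C) (x : ℝ) :
    ‖iteratedFDeriv ℝ k (fun y => (1 / (j.factorial : ℝ)) * psi (((16:ℝ) ^ 5) ^ j * y)) x‖ ≤
      C * ((((16:ℝ) ^ 5) ^ k) ^ j / j.factorial) := by
  have hk : ContDiff ℝ k (psi : ℝ → ℝ) := psi_smooth.of_le (by exact_mod_cast le_top)
  rw [norm_iteratedFDeriv_eq_norm_iteratedDeriv]
  have h1 : iteratedDeriv k (fun y => (1 / (j.factorial : ℝ)) * psi (((16:ℝ) ^ 5) ^ j * y)) x =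
      (1 / (j.factorial : ℝ)) *
        ((((16:ℝ) ^ 5) ^ j) ^ k * iteratedDeriv k psi (((16:ℝ) ^ 5) ^ j * x)) := by
    rw [iteratedDeriv_const_mul_field, iteratedDeriv_comp_const_mul hk]
  rw [h1, norm_mul, norm_mul]
  have h2 : ‖iteratedDeriv k psi (((16:ℝ) ^ 5) ^ j * x)‖ ≤ C := by
    rw [← norm_iteratedFDeriv_eq_norm_iteratedDeriv]
    exact hC _
  have h3 : ‖(((16:ℝ) ^ 5) ^ j) ^ k‖ = (((16:ℝ) ^ 5) ^ k) ^ j := by
    rw [Real.norm_of_nonneg (by positivity)]
    exact pow_right_comm _ _ _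
  have h4 : ‖(1 / (j.factorial : ℝ))‖ = 1 / (j.factorial : ℝ) :=
    Real.norm_of_nonneg (by positivity)
  rw [h3, h4]
  calc 1 / (j.factorial : ℝ) * ((((16:ℝ) ^ 5) ^ k) ^ j * ‖iteratedDeriv k psi _‖)
      ≤ 1 / (j.factorial : ℝ) * ((((16:ℝ) ^ 5) ^ k) ^ j * C) := by gcongr
    _ = _ := by ring

lemma G_smooth : ContDiff ℝ ∞ G := by
  choose C hC using exists_psi_bound
  refine contDiff_tsum (v := fun k j => C k * ((((16:ℝ) ^ 5) ^ k) ^ j / j.factorial))
    (fun j => term_smooth j) (fun k _ => ?_) (fun k j x _ => term_bound k j (hC k) x)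
  exact (Real.summable_pow_div_factorial _).mul_left _

lemma hasDerivAt_term (j : ℕ) (y : ℝ) :
    HasDerivAt (fun y => (1 / (j.factorial : ℝ)) * psi (((16:ℝ) ^ 5) ^ j * y))
      ((1 / (j.factorial : ℝ)) * (deriv psi (((16:ℝ) ^ 5) ^ j * y) * ((16:ℝ) ^ 5) ^ j)) y := by
  have h1 : HasDerivAt psi (deriv psi (((16:ℝ) ^ 5) ^ j * y)) (((16:ℝ) ^ 5) ^ j * y) :=
    (psi_smooth.differentiable (by simp) _).hasDerivAt
  have h2 : HasDerivAt (fun y : ℝ => ((16:ℝ) ^ 5) ^ j * y) (((16:ℝ) ^ 5) ^ j) y := by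
    simpa using (hasDerivAt_id y).const_mul (((16:ℝ) ^ 5) ^ j)
  exact (h1.comp y h2).const_mul _

lemma deriv_G (y : ℝ) : deriv G y =
    ∑' j : ℕ, (1 / (j.factorial : ℝ)) * (deriv psi (((16:ℝ) ^ 5) ^ j * y) * ((16:ℝ) ^ 5) ^ j) := by
  obtain ⟨C, hC⟩ := exists_psi_bound 1
  refine (hasDerivAt_tsum (u := fun j => C * ((((16:ℝ) ^ 5) ^ 1) ^ j / j.factorial)) (y₀ := 0)
    ?_ (fun j y => hasDerivAt_term j y) ?_ ?_ y).deriv
  · exact (Real.summable_pow_div_factorial _).mul_left _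
  · intro j y
    have h1 := term_bound 1 j hC y
    rw [norm_iteratedFDeriv_eq_norm_iteratedDeriv, iteratedDeriv_one,
      (hasDerivAt_term j y).deriv] at h1
    exact h1
  · have : (fun j : ℕ => (1 / (j.factorial : ℝ)) * psi (((16:ℝ) ^ 5) ^ j * 0)) =
        fun _ => 0 := by
      funext j
      rw [mul_zero, psi_zero_of (by norm_num), mul_zero]
    rw [this]
    exact summable_zero

lemma pow_cases (a i : ℕ) (h : a ≠ i) :
    (16:ℝ) ^ a * (1 / 16) ^ i ≤ 1 / 16 ∨ 16 ≤ (16:ℝ) ^ a * (1 / 16) ^ i := by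
  rcases lt_or_gt_of_ne h with h | h
  · left
    obtain ⟨k, rfl⟩ := Nat.exists_eq_add_of_lt h
    have e : (16:ℝ) ^ a * (1 / 16) ^ (a + k + 1) = (1 / 16) ^ k * (1 / 16) := by
      rw [pow_succ, pow_add, ← mul_assoc, ← mul_assoc, ← mul_pow]
      norm_num
    rw [e]
    have : ((1:ℝ) / 16) ^ k ≤ 1 := pow_le_one₀ (by norm_num) (by norm_num)
    linarith
  · right
    obtain ⟨k, rfl⟩ := Nat.exists_eq_add_of_lt h
    have e : (16:ℝ) ^ (i + k + 1) * (1 / 16) ^ i = 16 ^ k * 16 := by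
      rw [pow_succ, pow_add]
      have : (16:ℝ) ^ i * (1 / 16) ^ i = 1 := by rw [← mul_pow]; norm_num
      linear_combination 16 ^ k * 16 * this
    rw [e]
    have : (1:ℝ) ≤ 16 ^ k := one_le_pow₀ (by norm_num)
    linarith

lemma psi_pow (a i : ℕ) : psi ((16:ℝ) ^ a * (1 / 16) ^ i) = if a = i then 1 else 0 := by
  split_ifs with h
  · subst h
    rw [← mul_pow]
    norm_num [psi_one]
  · apply psi_zero_of
    rcases pow_cases a i h with h1 | h1
    · rw [abs_of_nonpos] <;> linarith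
    · rw [abs_of_nonneg] <;> linarith

lemma deriv_psi_pow (a i : ℕ) : deriv psi ((16:ℝ) ^ a * (1 / 16) ^ i) = 0 := by
  by_cases h : a = i
  · subst h
    rw [← mul_pow]
    norm_num [deriv_psi_one]
  · apply deriv_psi_zero_of
    rcases pow_cases a i h with h1 | h1
    · rw [abs_of_nonpos] <;> linarith
    · rw [abs_of_nonneg] <;> linarith

lemma G_zero : G 0 = 0 := by
  unfold G
  have : (fun j : ℕ => (1 / (j.factorial : ℝ)) * psi (((16:ℝ) ^ 5) ^ j * 0)) =
      fun _ => 0 := by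
    funext j
    rw [mul_zero, psi_zero_of (by norm_num), mul_zero]
  rw [this, tsum_zero]

lemma deriv_G_zero : deriv G 0 = 0 := by
  rw [deriv_G]
  have : (fun j : ℕ => (1 / (j.factorial : ℝ)) *
      (deriv psi (((16:ℝ) ^ 5) ^ j * 0) * ((16:ℝ) ^ 5) ^ j)) = fun _ => 0 := by
    funext j
    rw [mul_zero, deriv_psi_zero_of (by norm_num), zero_mul, mul_zero]
  rw [this, tsum_zero]

lemma deriv_G_pow (l i : ℕ) : deriv G ((16:ℝ) ^ l * (1 / 16) ^ i) = 0 := by
  rw [deriv_G]
  have : (fun j : ℕ => (1 / (j.factorial : ℝ)) *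
      (deriv psi (((16:ℝ) ^ 5) ^ j * ((16:ℝ) ^ l * (1 / 16) ^ i)) * ((16:ℝ) ^ 5) ^ j)) =
      fun _ => 0 := by
    funext j
    have e : ((16:ℝ) ^ 5) ^ j * ((16:ℝ) ^ l * (1 / 16) ^ i) =
        (16:ℝ) ^ (5 * j + l) * (1 / 16) ^ i := by
      rw [← mul_assoc, ← pow_mul, ← pow_add]
    rw [e, deriv_psi_pow, zero_mul, mul_zero]
  rw [this, tsum_zero]

/-- values of `G` at powers of `16` -/
lemma G_pow (l i : ℕ) (hl : l < 5) : G ((16:ℝ) ^ l * (1 / 16) ^ i) =
    if i % 5 = l then 1 / ((i / 5).factorial : ℝ) else 0 := by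
  unfold G
  have h1 : (fun j : ℕ => (1 / (j.factorial : ℝ)) *
      psi (((16:ℝ) ^ 5) ^ j * ((16:ℝ) ^ l * (1 / 16) ^ i))) =
      fun j => if 5 * j + l = i then 1 / (j.factorial : ℝ) else 0 := by
    funext j
    have e : ((16:ℝ) ^ 5) ^ j * ((16:ℝ) ^ l * (1 / 16) ^ i) =
        (16:ℝ) ^ (5 * j + l) * (1 / 16) ^ i := by
      rw [← mul_assoc, ← pow_mul, ← pow_add]
    rw [e, psi_pow]
    split_ifs <;> simp
  rw [h1]
  split_ifs with h
  · rw [tsum_eq_single (i / 5)]
    · rw [if_pos (by omega)]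
    · intro j hj
      rw [if_neg]
      omega
  · have : (fun j : ℕ => if 5 * j + l = i then 1 / (j.factorial : ℝ) else 0) = fun _ => 0 := by
      funext j
      rw [if_neg]
      omega
    rw [this, tsum_zero]

lemma uniq_pow {a b : ℕ} {y : ℝ} (ha : |(16:ℝ) ^ a * y - 1| ≤ 1 / 4)
    (hb : |(16:ℝ) ^ b * y - 1| ≤ 1 / 4) : a = b := by
  by_contra hne
  wlog h : a < b generalizing a b
  · exact this hb ha (Ne.symm hne) (lt_of_le_of_ne (not_lt.1 h) (Ne.symm hne))
  obtain ⟨k, rfl⟩ := Nat.exists_eq_add_of_lt h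
  have e : (16:ℝ) ^ (a + k + 1) * y = 16 ^ k * 16 * (16 ^ a * y) := by
    rw [pow_succ, pow_add]; ring
  rw [e] at hb
  rw [abs_le] at ha hb
  have h1 : (1:ℝ) ≤ 16 ^ k := one_le_pow₀ (by norm_num)
  nlinarith [ha.1, hb.2]

/-- for each `y` at most one of the functions `G(16ˡ ·)` has nonzero derivative at `y` -/
lemma exists_type (y : ℝ) : ∃ l0 : Fin 5, ∀ l : Fin 5, l ≠ l0 →
    deriv G ((16:ℝ) ^ (l : ℕ) * y) = 0 := by
  have hsupp : ∀ l : Fin 5, deriv G ((16:ℝ) ^ (l : ℕ) * y) ≠ 0 →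
      ∃ j : ℕ, |(16:ℝ) ^ (5 * j + l) * y - 1| ≤ 1 / 4 := by
    intro l hl
    by_contra hno
    push Not at hno
    apply hl
    rw [deriv_G]
    have : (fun j : ℕ => (1 / (j.factorial : ℝ)) *
        (deriv psi (((16:ℝ) ^ 5) ^ j * ((16:ℝ) ^ (l:ℕ) * y)) * ((16:ℝ) ^ 5) ^ j)) =
        fun _ => 0 := by
      funext j
      have e : ((16:ℝ) ^ 5) ^ j * ((16:ℝ) ^ (l:ℕ) * y) =
          (16:ℝ) ^ (5 * j + l) * y := by
        rw [← mul_assoc, ← pow_mul, ← pow_add]
      rw [e, deriv_psi_zero_of (hno j), zero_mul, mul_zero]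
    rw [this, tsum_zero]
  by_cases h : ∃ l : Fin 5, deriv G ((16:ℝ) ^ (l : ℕ) * y) ≠ 0
  · obtain ⟨l0, hl0⟩ := h
    refine ⟨l0, fun l hl => ?_⟩
    by_contra hne
    obtain ⟨j, hj⟩ := hsupp l hne
    obtain ⟨j', hj'⟩ := hsupp l0 hl0
    have := uniq_pow hj hj'
    apply hl
    apply Fin.ext
    have h1 := l.2
    have h2 := l0.2
    omega
  · push Not at h
    exact ⟨0, fun l _ => h l⟩


/-! ### The loops -/

/-- smooth transition function -/
abbrev T : ℝ → ℝ := Real.smoothTransition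

lemma T_smooth : ContDiff ℝ ∞ T := Real.smoothTransition.contDiff (n := ⊤)

lemma T_zero {x : ℝ} (hx : x ≤ 0) : T x = 0 := Real.smoothTransition.zero_of_nonpos hx

lemma T_one {x : ℝ} (hx : 1 ≤ x) : T x = 1 := Real.smoothTransition.one_of_one_le hx

lemma T_nonneg (x : ℝ) : 0 ≤ T x := Real.smoothTransition.nonneg x

lemma T_le_one (x : ℝ) : T x ≤ 1 := Real.smoothTransition.le_one x

lemma hasDerivAt_T (x : ℝ) : HasDerivAt T (deriv T x) x :=
  (T_smooth.differentiable (by simp) x).hasDerivAt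

lemma continuous_deriv_T : Continuous (deriv T) := T_smooth.continuous_deriv (by simp)

lemma deriv_T_of_nonpos {x : ℝ} (hx : x ≤ 0) : deriv T x = 0 := by
  apply IsLocalMin.deriv_eq_zero
  apply Eventually.of_forall
  intro y
  rw [T_zero hx]
  exact T_nonneg y

lemma deriv_T_of_one_le {x : ℝ} (hx : 1 ≤ x) : deriv T x = 0 := by
  apply IsLocalMax.deriv_eq_zero
  apply Eventually.of_forall
  intro y
  rw [T_one hx]
  exact T_le_one y

lemma exists_T_bound : ∃ C, ∀ x, |deriv T x| ≤ C := by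
  obtain ⟨C, hC⟩ := (isCompact_Icc (a := (0:ℝ)) (b := 1)).exists_bound_of_continuousOn
    continuous_deriv_T.continuousOn
  refine ⟨C, fun x => ?_⟩
  by_cases hx : x ∈ Icc (0:ℝ) 1
  · exact hC x hx
  · have hC0 : 0 ≤ C := (norm_nonneg _).trans (hC 0 ⟨le_rfl, zero_le_one⟩)
    have : deriv T x = 0 := by
      by_cases h : x ≤ 0
      · exact deriv_T_of_nonpos h
      · apply deriv_T_of_one_le
        by_contra h1
        exact hx ⟨(not_le.1 h).le, (not_le.1 h1).le⟩
    rw [this, abs_zero]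
    exact hC0

/-- first coordinate of the basic loop -/
def L1 (θ : ℝ) : ℝ := T (1 / 2 + Real.cos θ)

/-- second coordinate of the basic loop -/
def L2 (θ : ℝ) : ℝ := T (1 / 2 + Real.sin θ)

/-- derivative of `L1` -/
def L1' (θ : ℝ) : ℝ := deriv T (1 / 2 + Real.cos θ) * (-Real.sin θ)

/-- derivative of `L2` -/
def L2' (θ : ℝ) : ℝ := deriv T (1 / 2 + Real.sin θ) * Real.cos θ

lemma hasDerivAt_L1 (θ : ℝ) : HasDerivAt L1 (L1' θ) θ :=
  (hasDerivAt_T _).comp θ ((Real.hasDerivAt_cos θ).const_add _)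

lemma hasDerivAt_L2 (θ : ℝ) : HasDerivAt L2 (L2' θ) θ :=
  (hasDerivAt_T _).comp θ ((Real.hasDerivAt_sin θ).const_add _)

lemma continuous_L1 : Continuous L1 :=
  T_smooth.continuous.comp (continuous_const.add Real.continuous_cos)

lemma continuous_L2 : Continuous L2 :=
  T_smooth.continuous.comp (continuous_const.add Real.continuous_sin)

lemma continuous_L1' : Continuous L1' :=
  (continuous_deriv_T.comp (continuous_const.add Real.continuous_cos)).mul
    Real.continuous_sin.neg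

lemma continuous_L2' : Continuous L2' :=
  (continuous_deriv_T.comp (continuous_const.add Real.continuous_sin)).mul
    Real.continuous_cos

lemma abs_L1_le (θ : ℝ) : |L1 θ| ≤ 1 := by
  exact (abs_of_nonneg (T_nonneg _)).le.trans (T_le_one _)

lemma abs_L2_le (θ : ℝ) : |L2 θ| ≤ 1 := by
  exact (abs_of_nonneg (T_nonneg _)).le.trans (T_le_one _)

lemma abs_L1'_le {C : ℝ} (hC : ∀ x, |deriv T x| ≤ C) (θ : ℝ) : |L1' θ| ≤ C := by
  have hC0 : 0 ≤ C := (abs_nonneg _).trans (hC 0)
  rw [L1', abs_mul, abs_neg]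
  calc _ ≤ C * 1 := mul_le_mul (hC _) (Real.abs_sin_le_one θ) (abs_nonneg _) hC0
    _ = C := mul_one C

lemma abs_L2'_le {C : ℝ} (hC : ∀ x, |deriv T x| ≤ C) (θ : ℝ) : |L2' θ| ≤ C := by
  have hC0 : 0 ≤ C := (abs_nonneg _).trans (hC 0)
  rw [L2', abs_mul]
  calc _ ≤ C * 1 := mul_le_mul (hC _) (Real.abs_cos_le_one θ) (abs_nonneg _) hC0
    _ = C := mul_one C

/-- the base angle `5π/4` -/
def th0 : ℝ := Real.pi / 4 + Real.pi

lemma cos_th0 : Real.cos th0 ≤ -(1 / 2) := by
  rw [th0, Real.cos_add_pi, Real.cos_pi_div_four]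
  have : (1:ℝ) ≤ √2 := by
    rw [Real.one_le_sqrt]; norm_num
  linarith

lemma sin_th0 : Real.sin th0 ≤ -(1 / 2) := by
  rw [th0, Real.sin_add_pi, Real.sin_pi_div_four]
  have : (1:ℝ) ≤ √2 := by
    rw [Real.one_le_sqrt]; norm_num
  linarith

lemma L1_base (n : ℤ) : L1 (th0 + n * (2 * Real.pi)) = 0 := by
  rw [L1, Real.cos_add_int_mul_two_pi]
  exact T_zero (by linarith [cos_th0])

lemma L2_base (n : ℤ) : L2 (th0 + n * (2 * Real.pi)) = 0 := by
  rw [L2, Real.sin_add_int_mul_two_pi]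
  exact T_zero (by linarith [sin_th0])

/-- the loop stays on the boundary of the unit square -/
lemma L_cases (θ : ℝ) : (L1 θ = 0 ∨ L1 θ = 1) ∨ (L2 θ = 0 ∨ L2 θ = 1) := by
  have h := Real.sin_sq_add_cos_sq θ
  by_cases h1 : Real.cos θ ≤ -(1 / 2)
  · exact Or.inl (Or.inl (T_zero (by linarith)))
  by_cases h2 : 1 / 2 ≤ Real.cos θ
  · exact Or.inl (Or.inr (T_one (by linarith)))
  push Not at h1 h2
  right
  by_cases h3 : Real.sin θ ≤ -(1 / 2)
  · exact Or.inl (T_zero (by linarith))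
  by_cases h4 : 1 / 2 ≤ Real.sin θ
  · exact Or.inr (T_one (by linarith))
  push Not at h3 h4
  nlinarith

/-- the angle of the `i`-th loop (run `n` times) -/
def theta (n : ℤ) (i : ℕ) (t : ℝ) : ℝ := th0 + n * (2 * Real.pi) * T (2 ^ (i + 2) * t - 1)

/-- derivative of `theta` -/
def theta' (n : ℤ) (i : ℕ) (t : ℝ) : ℝ :=
  n * (2 * Real.pi) * (deriv T (2 ^ (i + 2) * t - 1) * 2 ^ (i + 2))

lemma hasDerivAt_theta (n : ℤ) (i : ℕ) (t : ℝ) : HasDerivAt (theta n i) (theta' n i t) t := by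
  have h1 : HasDerivAt (fun t : ℝ => 2 ^ (i + 2) * t - 1) (2 ^ (i + 2)) t := by
    simpa using ((hasDerivAt_id t).const_mul ((2:ℝ) ^ (i + 2))).sub_const 1
  exact (((hasDerivAt_T _).comp t h1).const_mul _).const_add _

lemma continuous_theta (n : ℤ) (i : ℕ) : Continuous (theta n i) :=
  continuous_iff_continuousAt.2 fun t => (hasDerivAt_theta n i t).continuousAt

lemma continuous_theta' (n : ℤ) (i : ℕ) : Continuous (theta' n i) := by
  unfold theta'
  have h : Continuous fun t : ℝ => deriv T (2 ^ (i + 2) * t - 1) :=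
    continuous_deriv_T.comp (by fun_prop)
  exact continuous_const.mul (h.mul continuous_const)

lemma abs_theta'_le {C K : ℝ} (hC : ∀ x, |deriv T x| ≤ C) (n : ℤ) (i : ℕ)
    (hn : |(n:ℝ)| ≤ K * 4 ^ i) (t : ℝ) :
    |theta' n i t| ≤ 8 * Real.pi * C * K * 8 ^ i := by
  have hC0 : 0 ≤ C := (abs_nonneg _).trans (hC 0)
  have hpi := Real.pi_pos
  have hK : 0 ≤ K * 4 ^ i := (abs_nonneg _).trans hn
  rw [theta', abs_mul (_ * _), abs_mul (n : ℝ), abs_mul (deriv T _),
    abs_of_pos (show (0:ℝ) < 2 * Real.pi by positivity),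
    abs_of_pos (show (0:ℝ) < 2 ^ (i + 2) by positivity)]
  calc |(n:ℝ)| * (2 * Real.pi) * (|deriv T (2 ^ (i + 2) * t - 1)| * 2 ^ (i + 2))
      ≤ (K * 4 ^ i) * (2 * Real.pi) * (C * 2 ^ (i + 2)) := by
        gcongr
        exact hC _
    _ = 8 * Real.pi * C * K * 8 ^ i := by
        have : (8:ℝ) ^ i = 4 ^ i * 2 ^ i := by rw [← mul_pow]; norm_num
        rw [this]; ring

/-- outside the `i`-th time interval the `i`-th loop is at rest at the base point -/
lemma theta_rest (n : ℤ) (i : ℕ) {t : ℝ}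
    (h : (2:ℝ) ^ (i + 2) * t - 1 ≤ 0 ∨ 1 ≤ (2:ℝ) ^ (i + 2) * t - 1) :
    (∃ n' : ℤ, theta n i t = th0 + n' * (2 * Real.pi)) ∧ theta' n i t = 0 := by
  rcases h with h | h
  · refine ⟨⟨0, ?_⟩, ?_⟩
    · rw [theta, T_zero h]; simp
    · rw [theta', deriv_T_of_nonpos h]; simp
  · refine ⟨⟨n, ?_⟩, ?_⟩
    · rw [theta, T_one h]; simp
    · rw [theta', deriv_T_of_one_le h]; simp

/-- a function `L` of the angle together with its derivative `L'`, vanishing at the base point -/
structure IsCoord (L L' : ℝ → ℝ) : Prop where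
  der : ∀ θ, HasDerivAt L (L' θ) θ
  cont : Continuous L'
  bd : ∀ θ, |L θ| ≤ 1
  bd' : ∃ C, 0 ≤ C ∧ ∀ θ, |L' θ| ≤ C
  base : ∀ n : ℤ, L (th0 + n * (2 * Real.pi)) = 0

lemma isCoord_L1 : IsCoord L1 L1' := by
  obtain ⟨C, hC⟩ := exists_T_bound
  exact ⟨hasDerivAt_L1, continuous_L1', abs_L1_le,
    ⟨C, (abs_nonneg _).trans (hC 0), abs_L1'_le hC⟩, L1_base⟩

lemma isCoord_L2 : IsCoord L2 L2' := by
  obtain ⟨C, hC⟩ := exists_T_bound
  exact ⟨hasDerivAt_L2, continuous_L2', abs_L2_le,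
    ⟨C, (abs_nonneg _).trans (hC 0), abs_L2'_le hC⟩, L2_base⟩

/-- superposition of the loops -/
def loopSum (s : ℕ → ℝ) (L : ℝ → ℝ) (n : ℕ → ℤ) (t : ℝ) : ℝ :=
  ∑' i, s i * L (theta (n i) i t)

/-- derivative of `loopSum` -/
def loopSum' (s : ℕ → ℝ) (L' : ℝ → ℝ) (n : ℕ → ℤ) (t : ℝ) : ℝ :=
  ∑' i, s i * (L' (theta (n i) i t) * theta' (n i) i t)

lemma loop_bound {s : ℕ → ℝ} {L' : ℝ → ℝ} {n : ℕ → ℤ} {C C' K S : ℝ}
    (hC : ∀ x, |deriv T x| ≤ C) (hC'0 : 0 ≤ C') (hC' : ∀ θ, |L' θ| ≤ C')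
    (hs : ∀ i, |s i| ≤ S * (1 / 16) ^ i)
    (hn : ∀ i, |(n i : ℝ)| ≤ K * 4 ^ i) (i : ℕ) (t : ℝ) :
    ‖s i * (L' (theta (n i) i t) * theta' (n i) i t)‖ ≤
      (S * C' * (8 * Real.pi * C * K)) * (1 / 2) ^ i := by
  have h1 := abs_theta'_le hC (n i) i (hn i) t
  have h2 := hC' (theta (n i) i t)
  have h3 := hs i
  have h0 : 0 ≤ 8 * Real.pi * C * K * 8 ^ i := (abs_nonneg _).trans h1
  rw [Real.norm_eq_abs, abs_mul, abs_mul]
  calc |s i| * (|L' (theta (n i) i t)| * |theta' (n i) i t|)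
      ≤ (S * (1 / 16) ^ i) * (C' * (8 * Real.pi * C * K * 8 ^ i)) :=
        mul_le_mul h3 (mul_le_mul h2 h1 (abs_nonneg _) hC'0)
          (mul_nonneg (abs_nonneg _) (abs_nonneg _)) ((abs_nonneg _).trans h3)
    _ = (S * C' * (8 * Real.pi * C * K)) * (1 / 2) ^ i := by
        have : ((1:ℝ) / 2) ^ i = (1 / 16) ^ i * 8 ^ i := by rw [← mul_pow]; norm_num
        rw [this]; ring

lemma hasDerivAt_loopSum {s : ℕ → ℝ} {L L' : ℝ → ℝ} (hL : IsCoord L L') {n : ℕ → ℤ} {K S : ℝ}
    (hs : ∀ i, |s i| ≤ S * (1 / 16) ^ i) (hn : ∀ i, |(n i : ℝ)| ≤ K * 4 ^ i) (t : ℝ) :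
    HasDerivAt (loopSum s L n) (loopSum' s L' n t) t := by
  obtain ⟨C, hC⟩ := exists_T_bound
  obtain ⟨C', hC'0, hC'⟩ := hL.bd'
  refine hasDerivAt_tsum (u := fun i => (S * C' * (8 * Real.pi * C * K)) * (1 / 2) ^ i) (y₀ := 0)
    (Summable.mul_left _ (summable_geometric_of_lt_one (by norm_num) (by norm_num)))
    (fun i t => ((hL.der _).comp t (hasDerivAt_theta (n i) i t)).const_mul (s i))
    (fun i t => loop_bound hC hC'0 hC' hs hn i t) ?_ t
  refine Summable.of_norm_bounded (g := fun i => S * (1 / 16) ^ i)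
    (Summable.mul_left _ (summable_geometric_of_lt_one (by norm_num) (by norm_num))) fun i => ?_
  rw [Real.norm_eq_abs, abs_mul]
  calc |s i| * |L (theta (n i) i 0)| ≤ (S * (1 / 16) ^ i) * 1 :=
        mul_le_mul (hs i) (hL.bd _) (abs_nonneg _) ((abs_nonneg _).trans (hs i))
    _ = _ := mul_one _

lemma continuous_loopSum' {s : ℕ → ℝ} {L L' : ℝ → ℝ} (hL : IsCoord L L') {n : ℕ → ℤ} {K S : ℝ}
    (hs : ∀ i, |s i| ≤ S * (1 / 16) ^ i) (hn : ∀ i, |(n i : ℝ)| ≤ K * 4 ^ i) :
    Continuous (loopSum' s L' n) := by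
  obtain ⟨C, hC⟩ := exists_T_bound
  obtain ⟨C', hC'0, hC'⟩ := hL.bd'
  refine continuous_tsum (u := fun i => (S * C' * (8 * Real.pi * C * K)) * (1 / 2) ^ i)
    (fun i => ?_) (Summable.mul_left _ (summable_geometric_of_lt_one (by norm_num) (by norm_num)))
    (fun i t => loop_bound hC hC'0 hC' hs hn i t)
  exact continuous_const.mul ((hL.cont.comp (continuous_theta (n i) i)).mul
    (continuous_theta' (n i) i))

/-- on the `k`-th interval only the `k`-th loop is active -/
lemma interval_cases {k i : ℕ} (hik : i ≠ k) {t : ℝ}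
    (ht : t ∈ Icc (((1:ℝ) / 2) ^ (k + 2)) ((1 / 2) ^ (k + 1))) :
    (2:ℝ) ^ (i + 2) * t - 1 ≤ 0 ∨ 1 ≤ (2:ℝ) ^ (i + 2) * t - 1 := by
  rcases lt_or_gt_of_ne hik with h | h
  · left
    obtain ⟨d, rfl⟩ := Nat.exists_eq_add_of_lt h
    have e : (2:ℝ) ^ (i + 2) * (1 / 2) ^ (i + d + 1 + 1) = (1 / 2) ^ d := by
      rw [show i + d + 1 + 1 = (i + 2) + d by ring, pow_add _ (i + 2) d, ← mul_assoc, ← mul_pow]
      norm_num
    have h1 : ((1:ℝ) / 2) ^ d ≤ 1 := pow_le_one₀ (by norm_num) (by norm_num)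
    have h2 : (2:ℝ) ^ (i + 2) * t ≤ (2:ℝ) ^ (i + 2) * (1 / 2) ^ (i + d + 1 + 1) :=
      mul_le_mul_of_nonneg_left ht.2 (by positivity)
    linarith
  · right
    obtain ⟨d, rfl⟩ := Nat.exists_eq_add_of_lt h
    have e : (2:ℝ) ^ (k + d + 1 + 2) * (1 / 2) ^ (k + 2) = 2 * 2 ^ d := by
      rw [show k + d + 1 + 2 = (k + 2) + (d + 1) by ring, pow_add _ (k + 2) (d + 1)]
      have : (2:ℝ) ^ (k + 2) * (1 / 2) ^ (k + 2) = 1 := by rw [← mul_pow]; norm_num
      rw [pow_succ _ d]
      linear_combination (2 ^ d * 2) * this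
    have h1 : (1:ℝ) ≤ 2 ^ d := one_le_pow₀ (by norm_num)
    have h2 : (2:ℝ) ^ (k + d + 1 + 2) * (1 / 2) ^ (k + 2) ≤ (2:ℝ) ^ (k + d + 1 + 2) * t :=
      mul_le_mul_of_nonneg_left ht.1 (by positivity)
    linarith

lemma loopSum_on {s : ℕ → ℝ} {L L' : ℝ → ℝ} (hL : IsCoord L L') (n : ℕ → ℤ) {k : ℕ} {t : ℝ}
    (ht : t ∈ Icc (((1:ℝ) / 2) ^ (k + 2)) ((1 / 2) ^ (k + 1))) :
    loopSum s L n t = s k * L (theta (n k) k t) ∧
      loopSum' s L' n t = s k * (L' (theta (n k) k t) * theta' (n k) k t) := by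
  constructor
  · unfold loopSum
    rw [tsum_eq_single k]
    intro i hi
    obtain ⟨⟨n', hn'⟩, _⟩ := theta_rest (n i) i (interval_cases hi ht)
    rw [hn', hL.base, mul_zero]
  · unfold loopSum'
    rw [tsum_eq_single k]
    intro i hi
    obtain ⟨_, h⟩ := theta_rest (n i) i (interval_cases hi ht)
    rw [h, mul_zero, mul_zero]

lemma loopSum_off {s : ℕ → ℝ} {L L' : ℝ → ℝ} (hL : IsCoord L L') (n : ℕ → ℤ) {t : ℝ}
    (ht : t ≤ 0 ∨ 1 / 2 ≤ t) :
    loopSum s L n t = 0 ∧ loopSum' s L' n t = 0 := by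
  have hc : ∀ i : ℕ, (2:ℝ) ^ (i + 2) * t - 1 ≤ 0 ∨ 1 ≤ (2:ℝ) ^ (i + 2) * t - 1 := by
    intro i
    rcases ht with h | h
    · left
      have : (2:ℝ) ^ (i + 2) * t ≤ 0 := mul_nonpos_of_nonneg_of_nonpos (by positivity) h
      linarith
    · right
      have h1 : (1:ℝ) ≤ 2 ^ i := one_le_pow₀ (by norm_num)
      have h2 : (2:ℝ) ^ (i + 2) * (1 / 2) ≤ (2:ℝ) ^ (i + 2) * t :=
        mul_le_mul_of_nonneg_left h (by positivity)
      have e : (2:ℝ) ^ (i + 2) * (1 / 2) = 2 * 2 ^ i := by rw [pow_add]; ring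
      linarith
  constructor
  · unfold loopSum
    have : (fun i => s i * L (theta (n i) i t)) = fun _ => 0 := by
      funext i
      obtain ⟨⟨n', hn'⟩, _⟩ := theta_rest (n i) i (hc i)
      rw [hn', hL.base, mul_zero]
    rw [this, tsum_zero]
  · unfold loopSum'
    have : (fun i => s i * (L' (theta (n i) i t) * theta' (n i) i t)) = fun _ => 0 := by
      funext i
      obtain ⟨_, h⟩ := theta_rest (n i) i (hc i)
      rw [h, mul_zero, mul_zero]
    rw [this, tsum_zero]

/-- every `t ∈ (0, 1/2]` lies in one of the intervals -/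
lemma exists_interval {t : ℝ} (h0 : 0 < t) (h1 : t ≤ 1 / 2) :
    ∃ k : ℕ, t ∈ Icc (((1:ℝ) / 2) ^ (k + 2)) ((1 / 2) ^ (k + 1)) := by
  obtain ⟨k, hk1, hk2⟩ := exists_nat_pow_near_of_lt_one (y := (1:ℝ) / 2) (x := 2 * t)
    (by linarith) (by linarith) (by norm_num) (by norm_num)
  refine ⟨k, ?_, ?_⟩
  · rw [pow_succ _ (k + 1)]; linarith
  · rw [pow_succ _ k]; linarith

/-! ### Holonomy of the basic loop -/

lemma cos_ge_half {θ : ℝ} (h : |θ| ≤ Real.pi / 3) : 1 / 2 ≤ Real.cos θ := by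
  rw [← Real.cos_abs, ← Real.cos_pi_div_three]
  exact Real.cos_le_cos_of_nonneg_of_le_pi (abs_nonneg _) (by linarith [Real.pi_pos]) h

lemma cos_le_half {θ : ℝ} (h1 : Real.pi / 3 ≤ θ) (h2 : θ ≤ 5 * Real.pi / 3) :
    Real.cos θ ≤ 1 / 2 := by
  have hpi := Real.pi_pos
  by_cases h : θ ≤ Real.pi
  · rw [← Real.cos_pi_div_three]
    exact Real.cos_le_cos_of_nonneg_of_le_pi (by positivity) h h1
  · rw [← Real.cos_two_pi_sub, ← Real.cos_pi_div_three]
    push Not at h
    exact Real.cos_le_cos_of_nonneg_of_le_pi (by positivity) (by linarith) (by linarith)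

lemma sqrt3 : (1:ℝ) ≤ √3 := by
  rw [Real.one_le_sqrt]; norm_num

lemma loop_holonomy {F H : ℝ → ℝ} (hF : Continuous F) (hF0 : F 0 = 0)
    (hH : ContDiff ℝ ∞ H) (hH0 : H 0 = 0) (hH'0 : deriv H 0 = 0) {a s : ℝ}
    (hs : deriv H s = 0) :
    ∫ θ in th0..th0 + 2 * Real.pi, F (a * L1 θ) * (deriv H (s * L2 θ) * (s * L2' θ)) =
      F a * H s := by
  have hpi := Real.pi_pos
  set h : ℝ → ℝ := fun θ => F (a * L1 θ) * (deriv H (s * L2 θ) * (s * L2' θ)) with hh
  have hH' : Continuous (deriv H) := hH.continuous_deriv (by simp)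
  have hcont2 : Continuous fun θ => deriv H (s * L2 θ) * (s * L2' θ) :=
    (hH'.comp (continuous_const.mul continuous_L2)).mul (continuous_const.mul continuous_L2')
  have hcont : Continuous h := (hF.comp (continuous_const.mul continuous_L1)).mul hcont2
  have hper : Function.Periodic h (2 * Real.pi) := by
    intro θ
    simp only [hh, L1, L2, L2', Real.cos_add_two_pi, Real.sin_add_two_pi]
  have e1 := hper.intervalIntegral_add_eq th0 (-(Real.pi / 3))
  have e2 : ∫ θ in (-(Real.pi / 3))..(-(Real.pi / 3) + 2 * Real.pi), h θ =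
      (∫ θ in (-(Real.pi / 3))..(Real.pi / 3), h θ) +
        ∫ θ in (Real.pi / 3)..(-(Real.pi / 3) + 2 * Real.pi), h θ :=
    (intervalIntegral.integral_add_adjacent_intervals (hcont.intervalIntegrable _ _)
      (hcont.intervalIntegrable _ _)).symm
  have e3 : ∫ θ in (-(Real.pi / 3))..(Real.pi / 3), h θ = F a * H s := by
    have h1 : ∫ θ in (-(Real.pi / 3))..(Real.pi / 3), h θ =
        ∫ θ in (-(Real.pi / 3))..(Real.pi / 3), F a * (deriv H (s * L2 θ) * (s * L2' θ)) := by
      apply intervalIntegral.integral_congr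
      intro θ hθ
      rw [uIcc_of_le (by linarith)] at hθ
      have : L1 θ = 1 := by
        apply T_one
        have := cos_ge_half (θ := θ) (abs_le.2 hθ)
        linarith
      simp only [hh, this, mul_one]
    have h2 : ∀ θ ∈ uIcc (-(Real.pi / 3)) (Real.pi / 3),
        HasDerivAt (fun θ => H (s * L2 θ)) (deriv H (s * L2 θ) * (s * L2' θ)) θ := by
      intro θ _
      exact ((hH.differentiable (by simp) _).hasDerivAt).comp θ ((hasDerivAt_L2 θ).const_mul s)
    have h3 : L2 (Real.pi / 3) = 1 := by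
      apply T_one
      rw [Real.sin_pi_div_three]
      linarith [sqrt3]
    have h4 : L2 (-(Real.pi / 3)) = 0 := by
      apply T_zero
      rw [Real.sin_neg, Real.sin_pi_div_three]
      linarith [sqrt3]
    rw [h1, intervalIntegral.integral_const_mul,
      intervalIntegral.integral_eq_sub_of_hasDerivAt h2 (hcont2.intervalIntegrable _ _), h3, h4,
      mul_one, mul_zero, hH0, sub_zero]
  have e4 : ∫ θ in (Real.pi / 3)..(-(Real.pi / 3) + 2 * Real.pi), h θ = 0 := by
    have h1 : ∫ θ in (Real.pi / 3)..(-(Real.pi / 3) + 2 * Real.pi), h θ =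
        ∫ θ in (Real.pi / 3)..(-(Real.pi / 3) + 2 * Real.pi), (0:ℝ) := by
      apply intervalIntegral.integral_congr
      intro θ hθ
      rw [uIcc_of_le (by linarith)] at hθ
      have hc := cos_le_half hθ.1 (by linarith [hθ.2])
      by_cases h2 : Real.cos θ ≤ -(1 / 2)
      · have : L1 θ = 0 := T_zero (by linarith)
        simp only [hh, this, mul_zero, hF0, zero_mul]
      · push Not at h2
        have h3 := Real.sin_sq_add_cos_sq θ
        by_cases h4 : Real.sin θ ≤ -(1 / 2)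
        · have : L2 θ = 0 := T_zero (by linarith)
          simp only [hh, this, mul_zero, hH'0, zero_mul]
        by_cases h5 : 1 / 2 ≤ Real.sin θ
        · have : L2 θ = 1 := T_one (by linarith)
          simp only [hh, this, mul_one, hs, zero_mul, mul_zero]
        push Not at h4 h5
        nlinarith
    rw [h1, intervalIntegral.integral_zero]
  rw [e1, e2, e3, e4, add_zero]


/-! ### Expansions of real numbers -/

lemma exists_digits (r : ℝ) : ∃ (n : ℕ → ℤ) (K : ℝ), (∀ j, |(n j : ℝ)| ≤ K * 4 ^ j) ∧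
    HasSum (fun j => (n j : ℝ) * (1 / (j.factorial : ℝ) * (1 / (j.factorial : ℝ)))) r := by
  let N : ℕ → ℤ := fun j => ⌊((j.factorial : ℝ)) ^ 2 * r⌋
  let n : ℕ → ℤ := fun j => match j with
    | 0 => N 0
    | j + 1 => N (j + 1) - ((j : ℤ) + 1) ^ 2 * N j
  have hn0 : n 0 = N 0 := rfl
  have hns : ∀ j, n (j + 1) = N (j + 1) - ((j : ℤ) + 1) ^ 2 * N j := fun j => rfl
  have hbd : ∀ j, |(n j : ℝ)| ≤ (|(N 0 : ℝ)| + 1) * 4 ^ j := by
    intro j
    cases j with
    | zero => rw [hn0]; simp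
    | succ j =>
      rw [hns]
      push_cast
      have hx1 : (N j : ℝ) ≤ ((j.factorial : ℝ)) ^ 2 * r := Int.floor_le _
      have hx2 : ((j.factorial : ℝ)) ^ 2 * r < N j + 1 := Int.lt_floor_add_one _
      have hf : (((j + 1).factorial : ℕ) : ℝ) = (j + 1) * j.factorial := by
        rw [Nat.factorial_succ]; push_cast; ring
      have hy : (((j + 1).factorial : ℕ) : ℝ) ^ 2 * r =
          (j + 1) ^ 2 * ((j.factorial : ℝ) ^ 2 * r) := by rw [hf]; ring
      have hy1 : (N (j + 1) : ℝ) ≤ (j + 1) ^ 2 * ((j.factorial : ℝ) ^ 2 * r) := by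
        rw [← hy]; exact Int.floor_le _
      have hpos : (0:ℝ) < ((j:ℝ) + 1) ^ 2 := by positivity
      have hy2 : ((j:ℤ) + 1) ^ 2 * N j ≤ N (j + 1) := by
        apply Int.le_floor.2
        push_cast
        rw [hy]
        exact mul_le_mul_of_nonneg_left hx1 hpos.le
      have hy3 : ((j:ℝ) + 1) ^ 2 * N j ≤ N (j + 1) := by exact_mod_cast hy2
      have hy4 : (N (j + 1) : ℝ) - ((j:ℝ) + 1) ^ 2 * N j ≤ ((j:ℝ) + 1) ^ 2 := by
        nlinarith
      rw [abs_of_nonneg (by linarith)]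
      refine hy4.trans ?_
      have h2 : ((j:ℝ) + 1) ≤ 2 ^ (j + 1) := by
        have : j + 1 < 2 ^ (j + 1) := Nat.lt_two_pow_self
        exact_mod_cast this.le
      have h3 : ((j:ℝ) + 1) ^ 2 ≤ 4 ^ (j + 1) := by
        calc ((j:ℝ) + 1) ^ 2 ≤ (2 ^ (j + 1)) ^ 2 := by gcongr
          _ = 4 ^ (j + 1) := by rw [← pow_mul, mul_comm (j + 1) 2, pow_mul]; norm_num
      refine h3.trans ?_
      have : (1:ℝ) ≤ |(N 0 : ℝ)| + 1 := by linarith [abs_nonneg (N 0 : ℝ)]
      exact le_mul_of_one_le_left (by positivity) this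
  refine ⟨n, |(N 0 : ℝ)| + 1, hbd, ?_⟩
  set K := |(N 0 : ℝ)| + 1 with hK
  have hK0 : 0 ≤ K := by positivity
  have hsum : Summable (fun j => (n j : ℝ) *
      (1 / (j.factorial : ℝ) * (1 / (j.factorial : ℝ)))) := by
    refine Summable.of_norm_bounded (g := fun j => K * (4 ^ j / (j.factorial : ℝ)))
      ((Real.summable_pow_div_factorial 4).mul_left K) fun j => ?_
    have h1 : (1:ℝ) ≤ j.factorial := by exact_mod_cast j.factorial_pos
    have h2 : 1 / (j.factorial : ℝ) ≤ 1 := by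
      rw [div_le_one (by positivity)]; exact h1
    rw [Real.norm_eq_abs, abs_mul, abs_of_nonneg
      (show (0:ℝ) ≤ 1 / (j.factorial : ℝ) * (1 / (j.factorial : ℝ)) by positivity)]
    calc |(n j : ℝ)| * (1 / (j.factorial : ℝ) * (1 / (j.factorial : ℝ)))
        ≤ (K * 4 ^ j) * (1 / (j.factorial : ℝ) * 1) := by
          gcongr
          exact hbd j
      _ = K * (4 ^ j / (j.factorial : ℝ)) := by ring
  rw [hsum.hasSum_iff_tendsto_nat]
  have hpart : ∀ J : ℕ, ∑ j ∈ Finset.range (J + 1), (n j : ℝ) *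
      (1 / (j.factorial : ℝ) * (1 / (j.factorial : ℝ))) = N J / (J.factorial : ℝ) ^ 2 := by
    intro J
    induction J with
    | zero => simp [hn0]
    | succ J ih =>
      rw [Finset.sum_range_succ, ih, hns]
      have hf : (((J + 1).factorial : ℕ) : ℝ) = (J + 1) * J.factorial := by
        rw [Nat.factorial_succ]; push_cast; ring
      have h1 : (J.factorial : ℝ) ≠ 0 := by exact_mod_cast J.factorial_ne_zero
      have h2 : (J : ℝ) + 1 ≠ 0 := by positivity
      rw [hf]
      push_cast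
      field_simp
      ring
  rw [← tendsto_add_atTop_iff_nat 1]
  simp only [hpart]
  have hlim : Tendsto (fun J : ℕ => (1:ℝ) / (J.factorial : ℝ)) atTop (𝓝 0) := by
    have := FloorSemiring.tendsto_pow_div_factorial_atTop (1:ℝ)
    simpa using this
  rw [tendsto_iff_norm_sub_tendsto_zero]
  refine squeeze_zero (fun _ => norm_nonneg _) (fun J => ?_) hlim
  have hx1 : (N J : ℝ) ≤ ((J.factorial : ℝ)) ^ 2 * r := Int.floor_le _
  have hx2 : ((J.factorial : ℝ)) ^ 2 * r < N J + 1 := Int.lt_floor_add_one _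
  have h1 : (1:ℝ) ≤ J.factorial := by exact_mod_cast J.factorial_pos
  have hp : (0:ℝ) < (J.factorial : ℝ) ^ 2 := by positivity
  have e : (N J : ℝ) / (J.factorial : ℝ) ^ 2 - r =
      -(((J.factorial : ℝ)) ^ 2 * r - N J) / (J.factorial : ℝ) ^ 2 := by
    field_simp
    ring
  rw [Real.norm_eq_abs, e, abs_div, abs_neg, abs_of_nonneg (by linarith), abs_of_pos hp]
  rw [div_le_div_iff₀ hp (by positivity)]
  nlinarith

/-! ### The base path in the plane -/

/-- radii of the loops in the second coordinate -/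
def sb (i : ℕ) : ℝ := (1 / 16) ^ (5 * (i / 5))

lemma sa_bound (i : ℕ) : |((1:ℝ) / 16) ^ i| ≤ 1 * (1 / 16) ^ i := by
  rw [abs_of_nonneg (by positivity), one_mul]

lemma sb_bound (i : ℕ) : |sb i| ≤ 16 ^ 4 * (1 / 16) ^ i := by
  rw [sb, abs_of_nonneg (by positivity)]
  have h : i = 5 * (i / 5) + i % 5 := (Nat.div_add_mod i 5).symm
  have h2 : i % 5 ≤ 4 := by omega
  conv_rhs => rw [h, pow_add]
  have h3 : ((1:ℝ) / 16) ^ 4 ≤ (1 / 16) ^ (i % 5) :=
    pow_le_pow_of_le_one (by norm_num) (by norm_num) h2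
  have h4 : (0:ℝ) ≤ (1 / 16) ^ (5 * (i / 5)) := by positivity
  have h5 : (1:ℝ) ≤ 16 ^ 4 * (1 / 16) ^ (i % 5) := by
    calc (1:ℝ) = 16 ^ 4 * (1 / 16) ^ 4 := by norm_num
      _ ≤ _ := by gcongr
  calc ((1:ℝ) / 16) ^ (5 * (i / 5)) = (1 / 16) ^ (5 * (i / 5)) * 1 := (mul_one _).symm
    _ ≤ (1 / 16) ^ (5 * (i / 5)) * (16 ^ 4 * (1 / 16) ^ (i % 5)) := by gcongr
    _ = _ := by ring

/-- first coordinate of the path, final value `c` -/
def y1 (n : ℕ → ℤ) (c t : ℝ) : ℝ := loopSum (fun i => (1 / 16) ^ i) L1 n t + c * T (4 * t - 2)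

/-- second coordinate of the path, final value `c` -/
def y2 (n : ℕ → ℤ) (c t : ℝ) : ℝ := loopSum sb L2 n t + c * T (4 * t - 3)

/-- derivative of `y1` -/
def y1' (n : ℕ → ℤ) (c t : ℝ) : ℝ :=
  loopSum' (fun i => (1 / 16) ^ i) L1' n t + c * (deriv T (4 * t - 2) * 4)

/-- derivative of `y2` -/
def y2' (n : ℕ → ℤ) (c t : ℝ) : ℝ := loopSum' sb L2' n t + c * (deriv T (4 * t - 3) * 4)

lemma hasDerivAt_final (b t : ℝ) : HasDerivAt (fun t => T (4 * t - b))
    (deriv T (4 * t - b) * 4) t := by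
  have h1 : HasDerivAt (fun t : ℝ => 4 * t - b) 4 t := by
    simpa using ((hasDerivAt_id t).const_mul (4:ℝ)).sub_const b
  exact (hasDerivAt_T _).comp t h1

section path

variable {n : ℕ → ℤ} {K : ℝ} (hn : ∀ i, |(n i : ℝ)| ≤ K * 4 ^ i)
include hn

lemma hasDerivAt_y1 (c t : ℝ) : HasDerivAt (y1 n c) (y1' n c t) t :=
  (hasDerivAt_loopSum isCoord_L1 sa_bound hn t).add ((hasDerivAt_final 2 t).const_mul c)

lemma hasDerivAt_y2 (c t : ℝ) : HasDerivAt (y2 n c) (y2' n c t) t :=
  (hasDerivAt_loopSum isCoord_L2 sb_bound hn t).add ((hasDerivAt_final 3 t).const_mul c)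

lemma continuous_y1' (c : ℝ) : Continuous (y1' n c) :=
  (continuous_loopSum' isCoord_L1 sa_bound hn).add
    (continuous_const.mul ((continuous_deriv_T.comp (by fun_prop)).mul continuous_const))

lemma continuous_y2' (c : ℝ) : Continuous (y2' n c) :=
  (continuous_loopSum' isCoord_L2 sb_bound hn).add
    (continuous_const.mul ((continuous_deriv_T.comp (by fun_prop)).mul continuous_const))

lemma continuous_y1 (c : ℝ) : Continuous (y1 n c) :=
  continuous_iff_continuousAt.2 fun t => (hasDerivAt_y1 hn c t).continuousAt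

lemma continuous_y2 (c : ℝ) : Continuous (y2 n c) :=
  continuous_iff_continuousAt.2 fun t => (hasDerivAt_y2 hn c t).continuousAt

end path

lemma y1_zero (n : ℕ → ℤ) (c : ℝ) : y1 n c 0 = 0 := by
  rw [y1, (loopSum_off isCoord_L1 n (Or.inl le_rfl)).1, T_zero (by norm_num)]
  simp

lemma y2_zero (n : ℕ → ℤ) (c : ℝ) : y2 n c 0 = 0 := by
  rw [y2, (loopSum_off isCoord_L2 n (Or.inl le_rfl)).1, T_zero (by norm_num)]
  simp

lemma y1_one (n : ℕ → ℤ) (c : ℝ) : y1 n c 1 = c := by
  rw [y1, (loopSum_off isCoord_L1 n (Or.inr (by norm_num))).1, T_one (by norm_num)]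
  simp

lemma y2_one (n : ℕ → ℤ) (c : ℝ) : y2 n c 1 = c := by
  rw [y2, (loopSum_off isCoord_L2 n (Or.inr (by norm_num))).1, T_one (by norm_num)]
  simp

/-- The path stays on the grid where all the `G(16ˡ ·)'` vanish at the first coordinate or `G'`
vanishes at the second coordinate, until the first coordinate has its final value. -/
lemma grid (n : ℕ → ℤ) (c1 c2 : ℝ) {t : ℝ} (ht : t ∈ Icc (0:ℝ) 1) :
    (∀ l : ℕ, deriv G ((16:ℝ) ^ l * y1 n c1 t) = 0) ∨ deriv G (y2 n c2 t) = 0 ∨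
      y1 n c1 t = c1 := by
  rcases ht.1.eq_or_lt with h0 | h0
  · right; left
    rw [← h0, y2_zero, deriv_G_zero]
  by_cases h1 : t ≤ 1 / 2
  · obtain ⟨k, hk⟩ := exists_interval h0 h1
    have e1 : y1 n c1 t = (1 / 16) ^ k * L1 (theta (n k) k t) := by
      rw [y1, (loopSum_on isCoord_L1 n hk).1, T_zero (by linarith)]
      simp
    have e2 : y2 n c2 t = sb k * L2 (theta (n k) k t) := by
      rw [y2, (loopSum_on isCoord_L2 n hk).1, T_zero (by linarith)]
      simp
    rcases L_cases (theta (n k) k t) with (h | h) | (h | h)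
    · left; intro l; rw [e1, h, mul_zero, mul_zero, deriv_G_zero]
    · left; intro l; rw [e1, h, mul_one, deriv_G_pow]
    · right; left; rw [e2, h, mul_zero, deriv_G_zero]
    · right; left
      rw [e2, h, mul_one, sb]
      have := deriv_G_pow 0 (5 * (k / 5))
      rwa [pow_zero, one_mul] at this
  · push Not at h1
    by_cases h2 : t ≤ 3 / 4
    · right; left
      rw [y2, (loopSum_off isCoord_L2 n (Or.inr h1.le)).1, T_zero (by linarith)]
      simp [deriv_G_zero]
    · right; right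
      push Not at h2
      rw [y1, (loopSum_off isCoord_L1 n (Or.inr h1.le)).1, T_one (by linarith)]
      simp

/-- one loop -/
lemma integral_one (n : ℕ → ℤ) (c1 c2 : ℝ)
    {F : ℝ → ℝ} (hF : Continuous F) (hF0 : F 0 = 0) (k : ℕ) :
    ∫ t in ((1:ℝ) / 2) ^ (k + 1)..(1 / 2) ^ (k + 2),
      F (y1 n c1 t) * (deriv G (y2 n c2 t) * y2' n c2 t) =
      -((n k : ℝ) * (F ((1 / 16) ^ k) * G (sb k))) := by
  set h : ℝ → ℝ := fun θ => F ((1 / 16) ^ k * L1 θ) * (deriv G (sb k * L2 θ) * (sb k * L2' θ))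
    with hh
  have hG' : Continuous (deriv G) := G_smooth.continuous_deriv (by simp)
  have hcont : Continuous h :=
    (hF.comp (continuous_const.mul continuous_L1)).mul
      ((hG'.comp (continuous_const.mul continuous_L2)).mul (continuous_const.mul continuous_L2'))
  have hper : Function.Periodic h (2 * Real.pi) := by
    intro θ
    simp only [hh, L1, L2, L2', Real.cos_add_two_pi, Real.sin_add_two_pi]
  have hle : ((1:ℝ) / 2) ^ (k + 2) ≤ (1 / 2) ^ (k + 1) :=
    pow_le_pow_of_le_one (by norm_num) (by norm_num) (by omega)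
  have e1 : ∫ t in ((1:ℝ) / 2) ^ (k + 1)..(1 / 2) ^ (k + 2),
      F (y1 n c1 t) * (deriv G (y2 n c2 t) * y2' n c2 t) =
      ∫ t in ((1:ℝ) / 2) ^ (k + 1)..(1 / 2) ^ (k + 2),
        (h ∘ theta (n k) k) t * theta' (n k) k t := by
    apply intervalIntegral.integral_congr
    intro t ht
    rw [uIcc_of_ge hle] at ht
    have ht2 : t ≤ 1 / 2 := by
      refine ht.2.trans ?_
      rw [pow_succ]
      have : ((1:ℝ) / 2) ^ k ≤ 1 := pow_le_one₀ (by norm_num) (by norm_num)
      linarith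
    have e1 : y1 n c1 t = (1 / 16) ^ k * L1 (theta (n k) k t) := by
      rw [y1, (loopSum_on isCoord_L1 n ht).1, T_zero (by linarith)]
      simp
    have e2 : y2 n c2 t = sb k * L2 (theta (n k) k t) := by
      rw [y2, (loopSum_on isCoord_L2 n ht).1, T_zero (by linarith)]
      simp
    have e3 : y2' n c2 t = sb k * (L2' (theta (n k) k t) * theta' (n k) k t) := by
      rw [y2', (loopSum_on isCoord_L2 n ht).2, deriv_T_of_nonpos (by linarith)]
      simp
    simp only [e1, e2, e3, hh, Function.comp_apply]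
    ring
  rw [e1, intervalIntegral.integral_comp_mul_deriv (fun t _ => hasDerivAt_theta (n k) k t)
    (continuous_theta' (n k) k).continuousOn hcont]
  have a1 : theta (n k) k (((1:ℝ) / 2) ^ (k + 2)) = th0 := by
    have : (2:ℝ) ^ (k + 2) * (1 / 2) ^ (k + 2) = 1 := by rw [← mul_pow]; norm_num
    rw [theta, this, sub_self, T_zero le_rfl]
    simp
  have a2 : theta (n k) k (((1:ℝ) / 2) ^ (k + 1)) = th0 + n k • (2 * Real.pi) := by
    have : (2:ℝ) ^ (k + 2) * (1 / 2) ^ (k + 1) = 2 := by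
      rw [pow_succ _ (k + 1), mul_assoc, mul_comm (2:ℝ), ← mul_assoc, ← mul_pow]; norm_num
    rw [theta, this, T_one (by norm_num)]
    simp
  rw [a1, a2, intervalIntegral.integral_symm,
    hper.intervalIntegral_add_zsmul_eq _ _ (fun _ _ => hcont.intervalIntegrable _ _),
    loop_holonomy hF hF0 G_smooth G_zero deriv_G_zero, zsmul_eq_mul]
  rw [sb]
  have := deriv_G_pow 0 (5 * (k / 5))
  rwa [pow_zero, one_mul] at this

lemma integral_path {n : ℕ → ℤ} {K : ℝ} (hn : ∀ i, |(n i : ℝ)| ≤ K * 4 ^ i) (c1 c2 : ℝ)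
    {F : ℝ → ℝ} (hF : Continuous F) (hF0 : F 0 = 0) {r : ℝ}
    (hr : HasSum (fun k => (n k : ℝ) * (F ((1 / 16) ^ k) * G (sb k))) r) :
    ∫ t in (0:ℝ)..1, F (y1 n c1 t) * (deriv G (y2 n c2 t) * y2' n c2 t) = r + F c1 * G c2 := by
  have hG' : Continuous (deriv G) := G_smooth.continuous_deriv (by simp)
  have hcont : Continuous fun t => F (y1 n c1 t) * (deriv G (y2 n c2 t) * y2' n c2 t) :=
    (hF.comp (continuous_y1 hn c1)).mul ((hG'.comp (continuous_y2 hn c2)).mul
      (continuous_y2' hn c2))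
  set g : ℝ → ℝ := fun t => F (y1 n c1 t) * (deriv G (y2 n c2 t) * y2' n c2 t) with hg
  have e0 : ∫ t in (0:ℝ)..1, g t = (∫ t in (0:ℝ)..(1 / 2), g t) + ∫ t in (1 / 2 : ℝ)..1, g t :=
    (intervalIntegral.integral_add_adjacent_intervals (hcont.intervalIntegrable _ _)
      (hcont.intervalIntegrable _ _)).symm
  have e1 : ∫ t in (1 / 2 : ℝ)..0, g t = -r := by
    have h1 : ∀ N : ℕ, ∫ t in (1 / 2 : ℝ)..(1 / 2) ^ (N + 1), g t =
        -∑ k ∈ Finset.range N, (n k : ℝ) * (F ((1 / 16) ^ k) * G (sb k)) := by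
      intro N
      have h2 := intervalIntegral.sum_integral_adjacent_intervals (f := g) (μ := volume)
        (a := fun k : ℕ => ((1:ℝ) / 2) ^ (k + 1)) (n := N)
        (fun k _ => hcont.intervalIntegrable _ _)
      simp only [zero_add, pow_one] at h2
      rw [← h2, ← Finset.sum_neg_distrib]
      exact Finset.sum_congr rfl fun k _ => integral_one n c1 c2 hF hF0 k
    have h3 : Tendsto (fun N : ℕ => ∫ t in (1 / 2 : ℝ)..(1 / 2) ^ (N + 1), g t) atTop
        (𝓝 (∫ t in (1 / 2 : ℝ)..0, g t)) := by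
      have h4 : Continuous fun b : ℝ => ∫ t in (1 / 2 : ℝ)..b, g t :=
        intervalIntegral.continuous_primitive (fun _ _ => hcont.intervalIntegrable _ _) _
      have h5 : Tendsto (fun N : ℕ => ((1:ℝ) / 2) ^ (N + 1)) atTop (𝓝 0) :=
        (tendsto_pow_atTop_nhds_zero_of_lt_one (by norm_num) (by norm_num)).comp
          (tendsto_add_atTop_nat 1)
      exact (h4.tendsto 0).comp h5
    simp only [h1] at h3
    exact tendsto_nhds_unique h3 hr.tendsto_sum_nat.neg
  have e2 : ∫ t in (1 / 2 : ℝ)..1, g t = F c1 * G c2 := by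
    have h1 : ∫ t in (1 / 2 : ℝ)..1, g t = ∫ t in (1 / 2 : ℝ)..1,
        F c1 * (deriv G (c2 * T (4 * t - 3)) * (c2 * (deriv T (4 * t - 3) * 4))) := by
      apply intervalIntegral.integral_congr
      intro t ht
      rw [uIcc_of_le (by norm_num)] at ht
      have a1 : y1 n c1 t = c1 * T (4 * t - 2) := by
        rw [y1, (loopSum_off isCoord_L1 n (Or.inr ht.1)).1, zero_add]
      have a2 : y2 n c2 t = c2 * T (4 * t - 3) := by
        rw [y2, (loopSum_off isCoord_L2 n (Or.inr ht.1)).1, zero_add]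
      have a3 : y2' n c2 t = c2 * (deriv T (4 * t - 3) * 4) := by
        rw [y2', (loopSum_off isCoord_L2 n (Or.inr ht.1)).2, zero_add]
      simp only [hg, a1, a2, a3]
      by_cases h : 4 * t - 3 ≤ 0
      · rw [deriv_T_of_nonpos h]; ring
      · push Not at h
        rw [T_one (x := 4 * t - 2) (by linarith), mul_one]
    have h2 : ∀ t ∈ uIcc (1 / 2 : ℝ) 1, HasDerivAt (fun t => G (c2 * T (4 * t - 3)))
        (deriv G (c2 * T (4 * t - 3)) * (c2 * (deriv T (4 * t - 3) * 4))) t := by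
      intro t _
      exact ((G_smooth.differentiable (by simp) _).hasDerivAt).comp t
        ((hasDerivAt_final 3 t).const_mul c2)
    have h3 : Continuous fun t =>
        deriv G (c2 * T (4 * t - 3)) * (c2 * (deriv T (4 * t - 3) * 4)) := by
      have h4 : Continuous fun t : ℝ => T (4 * t - 3) :=
        T_smooth.continuous.comp (by fun_prop)
      have h5 : Continuous fun t : ℝ => deriv T (4 * t - 3) :=
        continuous_deriv_T.comp (by fun_prop)
      exact (hG'.comp (continuous_const.mul h4)).mul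
        (continuous_const.mul (h5.mul continuous_const))
    rw [h1, intervalIntegral.integral_const_mul,
      intervalIntegral.integral_eq_sub_of_hasDerivAt h2 (h3.intervalIntegrable _ _),
      T_one (by norm_num), T_zero (by norm_num), mul_one, mul_zero, G_zero, sub_zero]
  rw [e0, e2]
  have : ∫ t in (0:ℝ)..(1 / 2), g t = r := by
    rw [intervalIntegral.integral_symm, e1, neg_neg]
  rw [this]

/-- prescribing the five holonomies -/
lemma exists_loops (r : Fin 5 → ℝ) : ∃ (n : ℕ → ℤ) (K : ℝ), (∀ i, |(n i : ℝ)| ≤ K * 4 ^ i) ∧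
    ∀ l : Fin 5, HasSum (fun k => (n k : ℝ) * (G ((16:ℝ) ^ (l:ℕ) * (1 / 16) ^ k) * G (sb k)))
      (r l) := by
  choose N K hK hN using fun l => exists_digits (r l)
  have hmod : ∀ i : ℕ, i % 5 < 5 := fun i => Nat.mod_lt _ (by norm_num)
  refine ⟨fun i => N ⟨i % 5, hmod i⟩ (i / 5), ∑ l, |K l|, fun i => ?_, fun l => ?_⟩
  · refine (hK _ _).trans ?_
    have h1 : K ⟨i % 5, hmod i⟩ ≤ ∑ l, |K l| :=
      (le_abs_self _).trans (Finset.single_le_sum (f := fun l => |K l|)
        (fun l _ => abs_nonneg _) (Finset.mem_univ _))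
    have h2 : (4:ℝ) ^ (i / 5) ≤ 4 ^ i := pow_le_pow_right₀ (by norm_num) (Nat.div_le_self i 5)
    have h3 : 0 ≤ ∑ l, |K l| := Finset.sum_nonneg fun l _ => abs_nonneg _
    exact mul_le_mul h1 h2 (by positivity) h3
  · have hinj : Function.Injective fun j : ℕ => 5 * j + (l:ℕ) := by
      intro a b h
      simp only at h
      omega
    rw [← hinj.hasSum_iff]
    · have e : ((fun k : ℕ => (N ⟨k % 5, hmod k⟩ (k / 5) : ℝ) *
          (G ((16:ℝ) ^ (l:ℕ) * (1 / 16) ^ k) * G (sb k))) ∘ fun j : ℕ => 5 * j + (l:ℕ)) =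
          fun j => (N l j : ℝ) * (1 / (j.factorial : ℝ) * (1 / (j.factorial : ℝ))) := by
        funext j
        have hl := l.2
        have h1 : (5 * j + (l:ℕ)) / 5 = j := by omega
        have h2 : (5 * j + (l:ℕ)) % 5 = l := by omega
        have h3 : (⟨(5 * j + (l:ℕ)) % 5, hmod _⟩ : Fin 5) = l := Fin.ext h2
        have h4 : G (sb (5 * j + (l:ℕ))) = 1 / (j.factorial : ℝ) := by
          rw [sb, h1]
          have := G_pow 0 (5 * j) (by norm_num)
          rw [pow_zero, one_mul] at this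
          rw [this, if_pos (by omega)]
          congr 3
          omega
        simp only [Function.comp_apply]
        rw [h3, G_pow l _ hl, if_pos h2, h4, h1]
      rw [e]
      exact hN l
    · intro k hk
      have : k % 5 ≠ l := by
        intro h
        apply hk
        exact ⟨k / 5, by simp only; omega⟩
      rw [G_pow l k l.2, if_neg this]
      simp


/-! ### The structure on `ℝ⁴ × ℝ⁵` -/

/-- the vertical components of the frame -/
def A (i : Fin 4) (x : Fin 4 → ℝ) (l : Fin 5) : ℝ :=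
  (![0, G ((16:ℝ) ^ (l:ℕ) * x 0) * deriv G (x 1), 0,
    (![x 2, x 2 ^ 2 / 2, x 2 * x 3, x 2 ^ 3 / 6, x 2 * x 3 ^ 2 / 2] : Fin 5 → ℝ) l] :
    Fin 4 → ℝ) i

lemma A0 : A 0 = fun _ _ => 0 := rfl

lemma A1 : A 1 = fun (x : Fin 4 → ℝ) (l : Fin 5) =>
    G ((16:ℝ) ^ (l:ℕ) * x 0) * deriv G (x 1) := rfl

lemma A2 : A 2 = fun _ _ => 0 := rfl

lemma A3 : A 3 = fun x => ![x 2, x 2 ^ 2 / 2, x 2 * x 3, x 2 ^ 3 / 6, x 2 * x 3 ^ 2 / 2] := rfl

lemma deriv_G_smooth : ContDiff ℝ ∞ (deriv G) :=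
  (contDiff_infty_iff_deriv.1 G_smooth).2

lemma contDiff_A (i : Fin 4) : ContDiff ℝ ∞ (A i) := by
  rw [contDiff_pi]
  intro l
  have hc : ∀ j : Fin 4, ContDiff ℝ ∞ (fun x : Fin 4 → ℝ => x j) := fun j =>
    contDiff_apply ℝ ℝ j
  fin_cases i
  · exact contDiff_const
  · exact (G_smooth.comp (contDiff_const.mul (hc 0))).mul (deriv_G_smooth.comp (hc 1))
  · exact contDiff_const
  · fin_cases l
    · exact hc 2
    · exact ((hc 2).pow 2).div_const 2
    · exact (hc 2).mul (hc 3)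
    · exact ((hc 2).pow 3).div_const 6
    · exact ((hc 2).mul ((hc 3).pow 2)).div_const 2

lemma linearIndependent_hframe (q : (Fin 4 → ℝ) × (Fin 5 → ℝ)) :
    LinearIndependent ℝ (fun i => hframe A i q) := by
  rw [Fintype.linearIndependent_iff]
  intro g hg i
  have h1 : (∑ j, g j • hframe A j q).1 i = g i := by
    rw [Prod.fst_sum, Finset.sum_apply, Finset.sum_eq_single i]
    · simp [hframe]
    · intro b _ hb
      simp [hframe, hb.symm]
    · simp
  rw [← h1, hg]
  rfl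

/-! ### Lie brackets -/

/-- vertical vector fields -/
def vert (c : (Fin 4 → ℝ) → (Fin 5 → ℝ)) (q : (Fin 4 → ℝ) × (Fin 5 → ℝ)) :
    (Fin 4 → ℝ) × (Fin 5 → ℝ) := (0, c q.1)

lemma fderiv_vert {c : (Fin 4 → ℝ) → (Fin 5 → ℝ)} (hc : ContDiff ℝ ∞ c)
    (q v : (Fin 4 → ℝ) × (Fin 5 → ℝ)) :
    fderiv ℝ (vert c) q v = (0, fderiv ℝ c q.1 v.1) := by
  have h1 : HasFDerivAt c (fderiv ℝ c q.1) q.1 := (hc.differentiable (by simp) _).hasFDerivAt
  have h2 := (hasFDerivAt_const (0 : Fin 4 → ℝ) q).prodMk (h1.comp q hasFDerivAt_fst)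
  have h3 : HasFDerivAt (vert c) _ q := h2
  rw [h3.fderiv]
  rfl

lemma fderiv_hframe (i : Fin 4) (q v : (Fin 4 → ℝ) × (Fin 5 → ℝ)) :
    fderiv ℝ (hframe A i) q v = (0, fderiv ℝ (A i) q.1 v.1) := by
  have h1 : HasFDerivAt (A i) (fderiv ℝ (A i) q.1) q.1 :=
    ((contDiff_A i).differentiable (by simp) _).hasFDerivAt
  have h2 := (hasFDerivAt_const (Pi.single i 1 : Fin 4 → ℝ) q).prodMk
    (h1.comp q hasFDerivAt_fst)
  have h3 : HasFDerivAt (hframe A i) _ q := h2
  rw [h3.fderiv]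
  rfl

lemma bracket_vert (i : Fin 4) {c : (Fin 4 → ℝ) → (Fin 5 → ℝ)} (hc : ContDiff ℝ ∞ c) :
    VectorField.lieBracket ℝ (hframe A i) (vert c) =
      vert (fun x => fderiv ℝ c x (Pi.single i 1)) := by
  funext q
  rw [VectorField.lieBracket, fderiv_vert hc, fderiv_hframe]
  simp [vert, hframe]

lemma bracket_hframe (i j : Fin 4) :
    VectorField.lieBracket ℝ (hframe A i) (hframe A j) =
      vert (fun x => fderiv ℝ (A j) x (Pi.single i 1) - fderiv ℝ (A i) x (Pi.single j 1)) := by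
  funext q
  rw [VectorField.lieBracket, fderiv_hframe, fderiv_hframe]
  simp [vert, hframe]

lemma fderiv_of_line {c : (Fin 4 → ℝ) → (Fin 5 → ℝ)} (hc : ContDiff ℝ ∞ c) (x e : Fin 4 → ℝ)
    (d : Fin 5 → ℝ) (h : ∀ l, HasDerivAt (fun s : ℝ => c (x + s • e) l) (d l) 0) :
    fderiv ℝ c x e = d := by
  have h1 : HasDerivAt (fun s : ℝ => c (x + s • e)) (fderiv ℝ c x e) 0 := by
    have hl : HasDerivAt (fun s : ℝ => x + s • e) e 0 := by
      simpa using ((hasDerivAt_id (0:ℝ)).smul_const e).const_add x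
    have hd : HasFDerivAt c (fderiv ℝ c x) (x + (0:ℝ) • e) := by
      simpa using (hc.differentiable (by simp) x).hasFDerivAt
    exact hd.comp_hasDerivAt 0 hl
  exact h1.unique (hasDerivAt_pi.2 h)

/-- `[X₂, X₃]` -/
def c0 (x : Fin 4 → ℝ) : Fin 5 → ℝ := ![1, x 2, x 3, x 2 ^ 2 / 2, x 3 ^ 2 / 2]

/-- `[X₂, [X₂, X₃]]` -/
def c1 (x : Fin 4 → ℝ) : Fin 5 → ℝ := ![0, 1, 0, x 2, 0]

/-- `[X₃, [X₂, X₃]]` -/
def c2 (x : Fin 4 → ℝ) : Fin 5 → ℝ := ![0, 0, 1, 0, x 3]

/-- `[X₂, [X₂, [X₂, X₃]]]` -/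
def c3 (_ : Fin 4 → ℝ) : Fin 5 → ℝ := ![0, 0, 0, 1, 0]

/-- `[X₃, [X₃, [X₂, X₃]]]` -/
def c4 (_ : Fin 4 → ℝ) : Fin 5 → ℝ := ![0, 0, 0, 0, 1]

lemma hasDerivAt_coord (a b : ℝ) : HasDerivAt (fun s : ℝ => a + s * b) b 0 := by
  simpa using ((hasDerivAt_id (0:ℝ)).mul_const b).const_add a

lemma c0_smooth : ContDiff ℝ ∞ c0 := by
  rw [contDiff_pi]
  intro l
  fin_cases l <;> simp [c0] <;> fun_prop

lemma c1_smooth : ContDiff ℝ ∞ c1 := by
  rw [contDiff_pi]
  intro l
  fin_cases l <;> simp [c1] <;> fun_prop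

lemma c2_smooth : ContDiff ℝ ∞ c2 := by
  rw [contDiff_pi]
  intro l
  fin_cases l <;> simp [c2] <;> fun_prop

lemma dA3 (x : Fin 4 → ℝ) : fderiv ℝ (A 3) x (Pi.single 2 1) = c0 x := by
  apply fderiv_of_line (contDiff_A 3)
  have h2 : HasDerivAt (fun s : ℝ => x 2 + s) 1 0 := by simpa using hasDerivAt_coord (x 2) 1
  intro l
  fin_cases l
  · simpa [A3, c0] using h2
  · simpa [A3, c0] using (h2.pow 2).div_const 2
  · simpa [A3, c0] using h2.mul_const (x 3)
  · have := (h2.pow 3).div_const 6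
    have e : (3:ℝ) * x 2 ^ 2 / 6 = x 2 ^ 2 / 2 := by ring
    simpa [A3, c0, e] using this
  · have := (h2.mul_const (x 3 ^ 2)).div_const 2
    simpa [A3, c0] using this

lemma dA2 (x : Fin 4 → ℝ) : fderiv ℝ (A 2) x (Pi.single 3 1) = 0 := by
  apply fderiv_of_line (contDiff_A 2)
  intro l
  simpa [A2] using hasDerivAt_const (0:ℝ) (0:ℝ)

lemma dc0 (x : Fin 4 → ℝ) : fderiv ℝ c0 x (Pi.single 2 1) = c1 x := by
  apply fderiv_of_line c0_smooth
  have h2 : HasDerivAt (fun s : ℝ => x 2 + s) 1 0 := by simpa using hasDerivAt_coord (x 2) 1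
  intro l
  fin_cases l
  · simpa [c0, c1] using hasDerivAt_const (0:ℝ) (1:ℝ)
  · simpa [c0, c1] using h2
  · simpa [c0, c1] using hasDerivAt_const (0:ℝ) (x 3)
  · simpa [c0, c1] using (h2.pow 2).div_const 2
  · simpa [c0, c1] using hasDerivAt_const (0:ℝ) (x 3 ^ 2 / 2)

lemma dc0' (x : Fin 4 → ℝ) : fderiv ℝ c0 x (Pi.single 3 1) = c2 x := by
  apply fderiv_of_line c0_smooth
  have h2 : HasDerivAt (fun s : ℝ => x 3 + s) 1 0 := by simpa using hasDerivAt_coord (x 3) 1
  intro l
  fin_cases l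
  · simpa [c0, c2] using hasDerivAt_const (0:ℝ) (1:ℝ)
  · simpa [c0, c2] using hasDerivAt_const (0:ℝ) (x 2)
  · simpa [c0, c2] using h2
  · simpa [c0, c2] using hasDerivAt_const (0:ℝ) (x 2 ^ 2 / 2)
  · simpa [c0, c2] using (h2.pow 2).div_const 2

lemma dc1 (x : Fin 4 → ℝ) : fderiv ℝ c1 x (Pi.single 2 1) = c3 x := by
  apply fderiv_of_line c1_smooth
  have h2 : HasDerivAt (fun s : ℝ => x 2 + s) 1 0 := by simpa using hasDerivAt_coord (x 2) 1
  intro l
  fin_cases l
  · simpa [c1, c3] using hasDerivAt_const (0:ℝ) (0:ℝ)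
  · simpa [c1, c3] using hasDerivAt_const (0:ℝ) (1:ℝ)
  · simpa [c1, c3] using hasDerivAt_const (0:ℝ) (0:ℝ)
  · simpa [c1, c3] using h2
  · simpa [c1, c3] using hasDerivAt_const (0:ℝ) (0:ℝ)

lemma dc2 (x : Fin 4 → ℝ) : fderiv ℝ c2 x (Pi.single 3 1) = c4 x := by
  apply fderiv_of_line c2_smooth
  have h2 : HasDerivAt (fun s : ℝ => x 3 + s) 1 0 := by simpa using hasDerivAt_coord (x 3) 1
  intro l
  fin_cases l
  · simpa [c2, c4] using hasDerivAt_const (0:ℝ) (0:ℝ)
  · simpa [c2, c4] using hasDerivAt_const (0:ℝ) (0:ℝ)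
  · simpa [c2, c4] using hasDerivAt_const (0:ℝ) (1:ℝ)
  · simpa [c2, c4] using hasDerivAt_const (0:ℝ) (0:ℝ)
  · simpa [c2, c4] using h2

lemma bracketGenerating : BracketGenerating (hframe A) := by
  have b0 : IsIteratedBracket (hframe A) (vert c0) := by
    have h := IsIteratedBracket.bracket (IsIteratedBracket.basic (X := hframe A) 2)
      (IsIteratedBracket.basic (X := hframe A) 3)
    rw [bracket_hframe] at h
    simp only [dA3, dA2, sub_zero] at h
    exact h
  have b1 : IsIteratedBracket (hframe A) (vert c1) := by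
    have h := IsIteratedBracket.bracket (IsIteratedBracket.basic (X := hframe A) 2) b0
    rw [bracket_vert 2 c0_smooth] at h
    simp only [dc0] at h
    exact h
  have b2 : IsIteratedBracket (hframe A) (vert c2) := by
    have h := IsIteratedBracket.bracket (IsIteratedBracket.basic (X := hframe A) 3) b0
    rw [bracket_vert 3 c0_smooth] at h
    simp only [dc0'] at h
    exact h
  have b3 : IsIteratedBracket (hframe A) (vert c3) := by
    have h := IsIteratedBracket.bracket (IsIteratedBracket.basic (X := hframe A) 2) b1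
    rw [bracket_vert 2 c1_smooth] at h
    simp only [dc1] at h
    exact h
  have b4 : IsIteratedBracket (hframe A) (vert c4) := by
    have h := IsIteratedBracket.bracket (IsIteratedBracket.basic (X := hframe A) 3) b2
    rw [bracket_vert 3 c2_smooth] at h
    simp only [dc2] at h
    exact h
  intro q
  set S := Submodule.span ℝ {v | ∃ Y, IsIteratedBracket (hframe A) Y ∧ Y q = v} with hS
  have hmem : ∀ {Y}, IsIteratedBracket (hframe A) Y → Y q ∈ S := fun {Y} hY =>
    Submodule.subset_span ⟨Y, hY, rfl⟩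
  have hvert : ∀ b : Fin 5 → ℝ, ((0 : Fin 4 → ℝ), b) ∈ S := by
    intro b
    have e : ((0 : Fin 4 → ℝ), b) = b 0 • vert c0 q + (b 1 - b 0 * q.1 2) • vert c1 q +
        (b 2 - b 0 * q.1 3) • vert c2 q +
        (b 3 - b 0 * (q.1 2 ^ 2 / 2) - (b 1 - b 0 * q.1 2) * q.1 2) • vert c3 q +
        (b 4 - b 0 * (q.1 3 ^ 2 / 2) - (b 2 - b 0 * q.1 3) * q.1 3) • vert c4 q := by
      refine Prod.ext ?_ (funext fun l => ?_)
      · simp [vert]
      · fin_cases l <;> simp [vert, c0, c1, c2, c3, c4]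
    rw [e]
    exact S.add_mem (S.add_mem (S.add_mem (S.add_mem (S.smul_mem _ (hmem b0))
      (S.smul_mem _ (hmem b1))) (S.smul_mem _ (hmem b2))) (S.smul_mem _ (hmem b3)))
      (S.smul_mem _ (hmem b4))
  rw [Submodule.eq_top_iff']
  intro v
  have e : v = (∑ i, v.1 i • hframe A i q) + (0, v.2 - ∑ i, v.1 i • A i q.1) := by
    refine Prod.ext (funext fun j => ?_) (funext fun l => ?_)
    · rw [Prod.fst_add, Pi.add_apply, Prod.fst_sum, Finset.sum_apply, Finset.sum_eq_single j]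
      · simp [hframe]
      · intro b _ hb
        simp [hframe, hb.symm]
      · simp
    · rw [Prod.snd_add, Prod.snd_sum]
      simp [hframe]
  rw [e]
  exact S.add_mem (S.sum_mem fun i _ => S.smul_mem _ (hmem (IsIteratedBracket.basic i)))
    (hvert _)

/-! ### Singular curves to every point -/

lemma exists_lam (Z1 Z2 : ℝ) (l0 : Fin 5) : ∃ lam : Fin 5 → ℝ, lam ≠ 0 ∧ lam l0 = 0 ∧
    ∀ t : ℝ, lam 0 + lam 1 * (t * Z1) + lam 2 * (t * Z2) + lam 3 * ((t * Z1) ^ 2 / 2) +
      lam 4 * ((t * Z2) ^ 2 / 2) = 0 := by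
  by_cases hZ : Z1 = 0 ∧ Z2 = 0
  · obtain ⟨rfl, rfl⟩ := hZ
    by_cases h1 : l0 = 1
    · refine ⟨![0, 0, 1, 0, 0], fun h => ?_, ?_, fun t => ?_⟩
      · have := congrFun h 2
        simp at this
      · subst h1; rfl
      · simp
    · refine ⟨![0, 1, 0, 0, 0], fun h => ?_, ?_, fun t => ?_⟩
      · have := congrFun h 1
        simp at this
      · fin_cases l0 <;> first | rfl | exact absurd rfl h1
      · simp
  · by_cases h1 : l0 = 1 ∨ l0 = 2
    · refine ⟨![0, 0, 0, Z2 ^ 2, -Z1 ^ 2], fun h => hZ ?_, ?_, fun t => ?_⟩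
      · have h3 := congrFun h 3
        have h4 := congrFun h 4
        simp at h3 h4
        exact ⟨h4, h3⟩
      · rcases h1 with rfl | rfl <;> rfl
      · simp; ring
    · push Not at h1
      refine ⟨![0, Z2, -Z1, 0, 0], fun h => hZ ?_, ?_, fun t => ?_⟩
      · have h3 := congrFun h 1
        have h4 := congrFun h 2
        simp at h3 h4
        exact ⟨h4, h3⟩
      · fin_cases l0
        · rfl
        · exact absurd rfl h1.1
        · exact absurd rfl h1.2
        · rfl
        · rfl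
      · simp; ring

lemma exists_Lp {f : ℝ → ℝ} (hf : Continuous f) : ∃ u : Lp ℝ 2 leb, u =ᵐ[leb] f := by
  obtain ⟨C, hC⟩ := (isCompact_Icc (a := (0:ℝ)) (b := 1)).exists_bound_of_continuousOn
    hf.continuousOn
  have h : MemLp f 2 leb := MemLp.of_bound hf.aestronglyMeasurable C (by
    filter_upwards [ae_restrict_mem measurableSet_Icc] with s hs
    exact hC s hs)
  exact ⟨h.toLp f, h.coeFn_toLp⟩

theorem exists_singular (q : (Fin 4 → ℝ) × (Fin 5 → ℝ)) :
    ∃ γ, IsSingularCurve (hframe A) γ ∧ γ 0 = 0 ∧ γ 1 = q := by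
  obtain ⟨X, W⟩ := q
  -- the covector
  obtain ⟨l0, hl0⟩ := exists_type (X 0)
  obtain ⟨lam, hlam, hlam0, hlamZ⟩ := exists_lam (X 2) (X 3) l0
  -- the loops
  set Q : Fin 5 → ℝ → ℝ := fun l t => A 3 ![0, 0, t * X 2, t * X 3] l with hQ
  obtain ⟨n, K, hn, hsum⟩ := exists_loops fun l =>
    W l - (∫ t in (0:ℝ)..1, X 3 * Q l t) - G ((16:ℝ) ^ (l:ℕ) * X 0) * G (X 1)
  -- the base path
  let x : ℝ → (Fin 4 → ℝ) := fun t => ![y1 n (X 0) t, y2 n (X 1) t, t * X 2, t * X 3]
  let x' : ℝ → (Fin 4 → ℝ) := fun t => ![y1' n (X 0) t, y2' n (X 1) t, X 2, X 3]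
  have hx : ∀ t, HasDerivAt x (x' t) t := by
    intro t
    rw [hasDerivAt_pi]
    intro i
    fin_cases i
    · exact hasDerivAt_y1 hn _ t
    · exact hasDerivAt_y2 hn _ t
    · simpa [x, x'] using (hasDerivAt_id t).mul_const (X 2)
    · simpa [x, x'] using (hasDerivAt_id t).mul_const (X 3)
  have hx' : Continuous x' := by
    rw [continuous_pi_iff]
    intro i
    fin_cases i
    · exact continuous_y1' hn _
    · exact continuous_y2' hn _
    · exact continuous_const
    · exact continuous_const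
  have hxc : Continuous x := continuous_iff_continuousAt.2 fun t => (hx t).continuousAt
  have hx0 : x 0 = 0 := by
    ext i
    fin_cases i
    · exact y1_zero n _
    · exact y2_zero n _
    · simp [x]
    · simp [x]
  have hx1 : x 1 = X := by
    ext i
    fin_cases i
    · exact y1_one n _
    · exact y2_one n _
    · simp [x]
    · simp [x]
  choose u hu using fun i : Fin 4 => exists_Lp ((continuous_apply i).comp hx')
  have hXX : ∀ t ∈ Icc (0:ℝ) 1, XX u t = x t := by
    intro t ht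
    ext j
    have h1 : XX u t j = ∫ s in (0:ℝ)..t, x' s j := by
      show P (u j) t = _
      rw [P_eq _ ht, intervalIntegral.integral_of_le ht.1, ← integral_Icc_eq_integral_Ioc]
      exact integral_congr_ae (ae_Icc_of (hu j) ht)
    rw [h1, intervalIntegral.integral_eq_sub_of_hasDerivAt (f := fun t => x t j)
      (fun s _ => (hasDerivAt_pi.1 (hx s)) j)
      (((continuous_apply j).comp hx').intervalIntegrable _ _), hx0, Pi.zero_apply, sub_zero]
  have hPhi : ∀ (i : Fin 4) (c : (Fin 4 → ℝ) → ℝ), Phi1 i c u =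
      ∫ s in (0:ℝ)..1, x' s i * c (x s) := by
    intro i c
    apply int_congr
    filter_upwards [hu i, ae_restrict_mem measurableSet_Icc] with s h1 hs
    rw [h1, hXX s hs]
    rfl
  have h00 : traj A u 0 = 0 := by
    refine Prod.ext (XX_zero u) (funext fun l => ?_)
    simp [traj]
  refine ⟨traj A u, ?_, h00, ?_⟩
  · -- singular
    refine isSingularCurve_of contDiff_A lam hlam hx0 hx hx' u hu ?_
    intro t ht v
    -- `a₀ = a₂ = 0`
    have f0 : ∀ w, fderiv ℝ (fun z => ∑ l, lam l * A 0 z l) (x t) w = 0 := by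
      intro w
      have : (fun z : Fin 4 → ℝ => ∑ l, lam l * A 0 z l) = fun _ => 0 := by
        funext z
        simp [A0]
      rw [this]
      simp
    have f2 : ∀ w, fderiv ℝ (fun z => ∑ l, lam l * A 2 z l) (x t) w = 0 := by
      intro w
      have : (fun z : Fin 4 → ℝ => ∑ l, lam l * A 2 z l) = fun _ => 0 := by
        funext z
        simp [A2]
      rw [this]
      simp
    -- `a₁`
    have hp : ∀ j : Fin 4, HasFDerivAt (fun z : Fin 4 → ℝ => z j)
        (ContinuousLinearMap.proj (R := ℝ) (φ := fun _ : Fin 4 => ℝ) j) (x t) := fun j =>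
      (ContinuousLinearMap.proj (R := ℝ) (φ := fun _ : Fin 4 => ℝ) j).hasFDerivAt
    have f1 : ∃ κ : ℝ, ∀ w, fderiv ℝ (fun z => ∑ l, lam l * A 1 z l) (x t) w = κ * w 1 := by
      let g : ℝ → ℝ := fun s => ∑ l : Fin 5, lam l * G ((16:ℝ) ^ (l:ℕ) * s)
      let g' : ℝ → ℝ := fun s => ∑ l : Fin 5, lam l *
        (deriv G ((16:ℝ) ^ (l:ℕ) * s) * (16:ℝ) ^ (l:ℕ))
      have hg : ∀ s, HasDerivAt g (g' s) s := by
        intro s
        refine HasDerivAt.fun_sum fun l _ => ?_
        have h2 : HasDerivAt (fun y : ℝ => (16:ℝ) ^ (l:ℕ) * y) ((16:ℝ) ^ (l:ℕ)) s := by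
          simpa using (hasDerivAt_id s).const_mul ((16:ℝ) ^ (l:ℕ))
        exact (((G_smooth.differentiable (by simp) _).hasDerivAt).comp s h2).const_mul _
      have e : (fun z : Fin 4 → ℝ => ∑ l, lam l * A 1 z l) =
          fun z => g (z 0) * deriv G (z 1) := by
        funext z
        simp only [A1, g, Finset.sum_mul]
        exact Finset.sum_congr rfl fun l _ => by ring
      have hd1 := (hg (x t 0)).comp_hasFDerivAt (x t) (hp 0)
      have hd2 := ((deriv_G_smooth.differentiable (by simp) (x t 1)).hasDerivAt).comp_hasFDerivAt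
            (x t) (hp 1)
      have hd : HasFDerivAt (fun z : Fin 4 → ℝ => g (z 0) * deriv G (z 1)) _ (x t) :=
        hd1.mul hd2
      have hzero : g' (x t 0) * deriv G (x t 1) = 0 := by
        rcases grid n (X 0) (X 1) ht with h | h | h
        · have : g' (x t 0) = 0 := by
            apply Finset.sum_eq_zero
            intro l _
            have h' : deriv G ((16:ℝ) ^ (l:ℕ) * x t 0) = 0 := h l
            rw [h']; ring
          rw [this, zero_mul]
        · have h' : deriv G (x t 1) = 0 := h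
          rw [h', mul_zero]
        · have : g' (x t 0) = 0 := by
            have h' : x t 0 = X 0 := h
            rw [h']
            apply Finset.sum_eq_zero
            intro l _
            by_cases hl : l = l0
            · rw [hl, hlam0, zero_mul]
            · rw [hl0 l hl]; ring
          rw [this, zero_mul]
      refine ⟨g (x t 0) * deriv (deriv G) (x t 1), fun w => ?_⟩
      rw [e, hd.fderiv]
      simp only [_root_.add_apply, _root_.smul_apply,
        ContinuousLinearMap.proj_apply, smul_eq_mul, Function.comp_apply]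
      linear_combination (w 0) * hzero
    -- `a₃`
    have f3 : ∃ κ : ℝ, ∀ w, fderiv ℝ (fun z => ∑ l, lam l * A 3 z l) (x t) w = κ * w 3 := by
      have e : (fun z : Fin 4 → ℝ => ∑ l, lam l * A 3 z l) =
          fun z => lam 0 * z 2 + lam 1 * (z 2 ^ 2 / 2) + lam 2 * (z 2 * z 3) +
            lam 3 * (z 2 ^ 3 / 6) + lam 4 * (z 2 * z 3 ^ 2 / 2) := by
        funext z
        rw [Fin.sum_univ_five]
        simp [A3]
      have h2 : HasFDerivAt (fun z : Fin 4 → ℝ => z 2) _ (x t) := hp 2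
      have h3 : HasFDerivAt (fun z : Fin 4 → ℝ => z 3) _ (x t) := hp 3
      have t0 : HasFDerivAt (fun z : Fin 4 → ℝ => lam 0 * z 2) _ (x t) := h2.const_mul (lam 0)
      have t1 : HasFDerivAt (fun z : Fin 4 → ℝ => lam 1 * (z 2 ^ 2 * (1 / 2))) _ (x t) :=
        ((h2.pow 2).mul_const (1 / 2 : ℝ)).const_mul (lam 1)
      have t2 : HasFDerivAt (fun z : Fin 4 → ℝ => lam 2 * (z 2 * z 3)) _ (x t) :=
        (h2.mul h3).const_mul (lam 2)
      have t3 : HasFDerivAt (fun z : Fin 4 → ℝ => lam 3 * (z 2 ^ 3 * (1 / 6))) _ (x t) :=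
        ((h2.pow 3).mul_const (1 / 6 : ℝ)).const_mul (lam 3)
      have t4 : HasFDerivAt (fun z : Fin 4 → ℝ => lam 4 * (z 2 * z 3 ^ 2 * (1 / 2))) _ (x t) :=
        ((h2.mul (h3.pow 2)).mul_const (1 / 2 : ℝ)).const_mul (lam 4)
      have hd := (((t0.add t1).add t2).add t3).add t4
      have e' : (fun z : Fin 4 → ℝ => ∑ l, lam l * A 3 z l) =
          ((((fun z : Fin 4 → ℝ => lam 0 * z 2) + fun z => lam 1 * (z 2 ^ 2 * (1 / 2))) +
            fun z => lam 2 * (z 2 * z 3)) + fun z => lam 3 * (z 2 ^ 3 * (1 / 6))) +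
            fun z => lam 4 * (z 2 * z 3 ^ 2 * (1 / 2)) := by
        rw [e]
        funext z
        simp only [Pi.add_apply]
        ring
      refine ⟨lam 2 * x t 2 + lam 4 * (x t 2 * x t 3), fun w => ?_⟩
      rw [e', hd.fderiv]
      have hz := hlamZ t
      have z2 : x t 2 = t * X 2 := rfl
      have z3 : x t 3 = t * X 3 := rfl
      rw [← z2, ← z3] at hz
      simp only [_root_.add_apply, _root_.smul_apply,
        ContinuousLinearMap.proj_apply, smul_eq_mul, nsmul_eq_mul]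
      push_cast
      simp only [pow_one]
      linear_combination (w 2) * hz
    obtain ⟨κ1, f1⟩ := f1
    obtain ⟨κ3, f3⟩ := f3
    rw [Fin.sum_univ_four, Fin.sum_univ_four, f0, f0, f2, f2, f1, f1, f3, f3]
    ring
  · -- endpoint
    rw [traj_unique contDiff_A u _ (traj_isTrajectory contDiff_A u)]
    refine Prod.ext (funext fun i => ?_) (funext fun l => ?_)
    · show J (u i) = X i
      have h1 : J (u i) = XX u 1 i := rfl
      rw [h1, hXX 1 one_mem, hx1]
    · show ∑ i, Phi1 i (fun x => A i x l) u = W l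
      rw [Fin.sum_univ_four, hPhi, hPhi, hPhi, hPhi]
      have i0 : ∫ s in (0:ℝ)..1, x' s 0 * A 0 (x s) l = 0 := by simp [A0]
      have i2 : ∫ s in (0:ℝ)..1, x' s 2 * A 2 (x s) l = 0 := by simp [A2]
      have i3 : ∫ s in (0:ℝ)..1, x' s 3 * A 3 (x s) l = ∫ t in (0:ℝ)..1, X 3 * Q l t := rfl
      have i1 : ∫ s in (0:ℝ)..1, x' s 1 * A 1 (x s) l =
          (W l - (∫ t in (0:ℝ)..1, X 3 * Q l t) - G ((16:ℝ) ^ (l:ℕ) * X 0) * G (X 1)) +
            G ((16:ℝ) ^ (l:ℕ) * X 0) * G (X 1) := by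
        rw [← integral_path hn (X 0) (X 1) (F := fun s => G ((16:ℝ) ^ (l:ℕ) * s))
          (G_smooth.continuous.comp (by fun_prop)) (by simp only [mul_zero, G_zero]) (hsum l)]
        apply intervalIntegral.integral_congr
        intro s _
        show y2' n (X 1) s * (G ((16:ℝ) ^ (l:ℕ) * y1 n (X 0) s) * deriv G (y2 n (X 1) s)) = _
        ring
      rw [i0, i1, i2, i3]
      ring

/-- **The endpoint map of a smooth sub-Riemannian structure may have no regular value.** There are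
four smooth vector fields on `ℝ⁴ × ℝ⁵ = ℝ⁹`, linearly independent at every point and bracket
generating, such that every point `q` of `ℝ⁹` is the endpoint of a singular curve starting at
the origin. -/
theorem result : ∃ X : Fin 4 → (Fin 4 → ℝ) × (Fin 5 → ℝ) → (Fin 4 → ℝ) × (Fin 5 → ℝ),
    (∀ i, ContDiff ℝ ∞ (X i)) ∧ (∀ q, LinearIndependent ℝ (fun i => X i q)) ∧
      BracketGenerating X ∧ ∀ q, ∃ γ, IsSingularCurve X γ ∧ γ 0 = 0 ∧ γ 1 = q :=
  ⟨hframe A, hframe_smooth contDiff_A, linearIndependent_hframe, bracketGenerating,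
    exists_singular⟩

end

end Pool.Agent.Results.MP_77ffad_gt.NoRegularValue
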